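import Pool.Agent.Helper69.TwoArm.Side

/-!
Colour-blind percolation: definitions (faces, tiles, steps, interfaces).
-/

set_option autoImplicit false

namespace TA

/-- `v` is a tile -/
def IsTile (v : ℤ × ℤ) : Prop := Odd (v.1 + v.2)

/-- `f` is a face -/
def IsFace (f : ℤ × ℤ) : Prop := Even (f.1 + f.2)

/-- `f` and `g` are the two opposite faces of the tile `v` (west-east or south-north) -/
def Opp (f g v : ℤ × ℤ) : Prop :=
  (f.2 = v.2 ∧ g.2 = v.2 ∧ ((f.1 = v.1 - 1 ∧ g.1 = v.1 + 1) ∨ (f.1 = v.1 + 1 ∧ g.1 = v.1 - 1))) ∨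
  (f.1 = v.1 ∧ g.1 = v.1 ∧ ((f.2 = v.2 - 1 ∧ g.2 = v.2 + 1) ∨ (f.2 = v.2 + 1 ∧ g.2 = v.2 - 1)))

/-- one step from the face `f` to the face `g` through the tile `v` -/
def StpV (M : ℤ × ℤ → Prop) (f g v : ℤ × ℤ) : Prop := Opp f g v ∧ (M v ↔ f.2 = v.2)

/-- one step using only tiles in `R` -/
def StpIn (M : ℤ × ℤ → Prop) (R : Set (ℤ × ℤ)) (f g : ℤ × ℤ) : Prop := ∃ v ∈ R, StpV M f g v

/-- connection by steps through tiles in `R` -/
def Conn (M : ℤ × ℤ → Prop) (R : Set (ℤ × ℤ)) : ℤ × ℤ → ℤ × ℤ → Prop :=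
  Relation.ReflTransGen (StpIn M R)

open Classical in
/-- the next tile of an interface that comes from `u` and is at `v` -/
noncomputable def nx (M : ℤ × ℤ → Prop) (u v : ℤ × ℤ) : ℤ × ℤ :=
  if M v then (2 * v.1 - u.1, u.2) else (u.1, 2 * v.2 - u.2)

/-- an interface that crosses `D`: from outside to outside, all its inner tiles are in `D` -/
structure Traj (M : ℤ × ℤ → Prop) (D : Set (ℤ × ℤ)) (c : ℕ → ℤ × ℤ) (n : ℕ) : Prop where
  tile : IsTile (c 0)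
  diag : Diag (c 0) (c 1)
  pos : 0 < n
  out0 : c 0 ∉ D
  outn : c n ∉ D
  inn : ∀ t, 0 < t → t < n → c t ∈ D
  turn : ∀ t, t + 1 < n → c (t + 2) = nx M (c t) (c (t + 1))

/-- the interface through the medial edge from `u` to `v` leaves `D` at both ends -/
def Thru (M : ℤ × ℤ → Prop) (D : Set (ℤ × ℤ)) (u v : ℤ × ℤ) : Prop :=
  ∃ (c : ℕ → ℤ × ℤ) (n t : ℕ), Traj M D c n ∧ t < n ∧ c t = u ∧ c (t + 1) = v

/-- inner tiles of a path -/
def inner (c : ℕ → ℤ × ℤ) (n : ℕ) : Set (ℤ × ℤ) := {v | ∃ t, 0 < t ∧ t < n ∧ c t = v}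

/-- the face of the medial edge (unit square) `q` whose first coordinate is congruent to `k` -/
def fc (k : ℤ) (q : ℤ × ℤ) : ℤ × ℤ :=
  if (q.1 + k) % 2 = 0 then (q.1, if (q.1 + q.2) % 2 = 0 then q.2 else q.2 + 1)
  else (q.1 + 1, if (q.1 + q.2) % 2 = 0 then q.2 + 1 else q.2)

/-- the faces of colour `k` at the sides of the path -/
def Bd (k : ℤ) (c : ℕ → ℤ × ℤ) (n : ℕ) : Set (ℤ × ℤ) := {f | ∃ t < n, f = fc k (sq (c t) (c (t + 1)))}

end TA
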