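import Pool.Agent.Helper69.TwoArm.Explore

/-!
The deterministic statements in the form used for resampling (`mix`).
-/

set_option autoImplicit false

namespace TA

open Arm57 (Stop Dec mix)

section

variable {M : ℤ × ℤ → Prop} {D : Set (ℤ × ℤ)} {u v : ℤ × ℤ} {c : ℕ → ℤ × ℤ} {n t : ℕ}

lemma Path.rev (h : Path M D u v c n t) : Path M D v u (fun i => c (n - i)) n (n - 1 - t) := by
  have ht := h.2.1
  refine ⟨h.1.rev, by omega, ?_, ?_⟩
  · simp only
    rw [show n - (n - 1 - t) = t + 1 by omega]; exact h.2.2.2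
  · simp only
    rw [show n - (n - 1 - t + 1) = t by omega]; exact h.2.2.1

lemma Thru.symm (h : Thru M D u v) : Thru M D v u := by
  obtain ⟨c, n, t, hp⟩ := h.path
  exact ⟨_, _, _, hp.rev⟩

/-- where a trajectory leaves a rectangle -/
lemma exit_cases {W H : ℤ} (h : Traj M (rect W H) c n) (hn : 2 ≤ n) :
    ((c n).1 = W + 1 ∨ (c n).1 = -W - 1 ∨ (-W ≤ (c n).1 ∧ (c n).1 ≤ W ∧
      ((c n).2 = H + 1 ∨ (c n).2 = -H - 1))) ∧ -H - 1 ≤ (c n).2 ∧ (c n).2 ≤ H + 1 := by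
  have h1 := h.outn
  have h2 := h.inn (n - 1) (by omega) (by omega)
  have h3 := h.diags (n - 1) (by omega)
  rw [show n - 1 + 1 = n by omega] at h3
  unfold rect at h1 h2
  simp only [Set.mem_ofPred_eq] at h1 h2
  unfold Diag at h3
  omega

/-- the standard rays -/
def rayN (c : ℕ → ℤ × ℤ) (n : ℕ) : Ray :=
  ⟨(sq (c (n - 1)) (c n)).1, (c n).2, decide (0 < (c n).2)⟩

def ray0 (c : ℕ → ℤ × ℤ) : Ray := ⟨(sq (c 0) (c 1)).1, (c 0).2, decide (0 < (c 0).2)⟩

lemma ray0_rev (_hn : 1 ≤ n) : ray0 (fun i => c (n - i)) = rayN c n := by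
  unfold ray0 rayN
  simp only [Nat.sub_zero]
  rw [sq_comm]

lemma rayN_rev (hn : 1 ≤ n) : rayN (fun i => c (n - i)) n = ray0 c := by
  unfold ray0 rayN
  simp only [Nat.sub_self]
  rw [sq_comm, show n - (n - 1) = 1 by omega]

/-- no exit through the short sides: both ends are top or bottom exits -/
lemma ends_of {W H : ℤ} (hH : 0 ≤ H) (h : Traj M (rect W H) c n) (hn : 2 ≤ n)
    (h0 : -W ≤ (c 0).1 ∧ (c 0).1 ≤ W) (h1 : -W ≤ (c n).1 ∧ (c n).1 ≤ W) :
    Ends H (rect W H) c n (ray0 c) (rayN c n) := by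
  have e1 := exit_cases h hn
  have e0 := exit_cases h.rev hn
  simp only [Nat.sub_self] at e0
  refine ⟨fun x hx => ⟨hx.2.2.1, hx.2.2.2⟩, hH, rfl, rfl, ?_, ?_, rfl, rfl⟩
  · unfold ray0
    simp only [decide_eq_true_eq]
    split_ifs <;> omega
  · unfold rayN
    simp only [decide_eq_true_eq]
    split_ifs <;> omega

/-- at least one inner tile if the interface starts inside -/
lemma Path.two_le (h : Path M D u v c n t) (hu : u ∈ D ∨ v ∈ D) : 2 ≤ n := by
  by_contra hn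
  have h1 := h.2.1
  have h2 : n = 1 := by omega
  subst h2
  have ht : t = 0 := by omega
  subst ht
  rcases hu with hu | hu
  · exact h.1.out0 (h.2.2.1.symm ▸ hu)
  · exact h.1.outn (h.2.2.2.symm ▸ hu)

/-- a vertical crossing (of any colour) of a band on the right (left) of the centre prevents the
exit through the right (left) side -/
theorem side_block {W H : ℤ} (hp : Path M (rect W H) u v c n t) (hu : u ∈ rect W H)
    (hv : v ∈ rect W H) {x1 x2 : ℤ} {R : Set (ℤ × ℤ)} (hR : ∀ v ∈ R, x1 ≤ v.1 ∧ v.1 ≤ x2)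
    {a b : ℤ × ℤ} (hw : Conn M R a b) (hf : (a.1 + a.2) % 2 = 0)
    (ha : a.2 ≤ -H - 1) (hb : H + 1 ≤ b.2) :
    (x2 ≤ W → u.1 + 1 < x1 → v.1 + 1 < x1 → (c n).1 ≠ W + 1 ∧ (c 0).1 ≠ W + 1) ∧
    (-W < x1 → x2 + 1 ≤ u.1 → x2 + 1 ≤ v.1 → (c n).1 ≠ -W - 1 ∧ (c 0).1 ≠ -W - 1) := by
  have key : ∀ {u v : ℤ × ℤ} {c : ℕ → ℤ × ℤ} {n t : ℕ}, Path M (rect W H) u v c n t →
      u ∈ rect W H → v ∈ rect W H →
      (x2 ≤ W → u.1 + 1 < x1 → (c n).1 ≠ W + 1) ∧
      (-W < x1 → x2 + 1 ≤ u.1 → (c n).1 ≠ -W - 1) := by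
    intro u v c n t hp hu hv
    have hn := hp.two_le (Or.inl hu)
    have hex := exit_cases hp.1 hn
    have ht := hp.2.1
    have ht0 : 0 < t := by
      rcases Nat.eq_zero_or_pos t with h0 | h0
      · exfalso
        have := hp.1.out0
        rw [← h0, hp.2.2.1] at this
        exact this hu
      · exact h0
    have hHH : 0 ≤ H ∧ -W ≤ W := by
      unfold rect at hu
      simp only [Set.mem_ofPred_eq] at hu
      omega
    have hu2 : -H ≤ u.2 ∧ u.2 ≤ H := ⟨hu.2.2.1, hu.2.2.2⟩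
    have hab : a ≠ b := by rintro rfl; omega
    have hpath : ∀ s : Ray, s.At (c n) →
        PathR (fun i => c (t + i)) (n - t) ⟨u.1, u.2, true⟩ s := by
      intro s hs
      refine ⟨fun i hi => hp.1.tiles _ (by omega), fun i hi => hp.1.diags (t + i) (by omega), ?_, ?_⟩
      · show Ray.At _ (c (t + 0))
        rw [Nat.add_zero, hp.2.2.1]; exact ⟨rfl, Or.inl rfl⟩
      · show s.At (c (t + (n - t)))
        rw [show t + (n - t) = n by omega]; exact hs
    have hturn : ∀ i, i + 1 < n - t → (fun i => c (t + i)) (i + 2)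
        = nx M ((fun i => c (t + i)) i) ((fun i => c (t + i)) (i + 1)) :=
      fun i hi => hp.1.turn (t + i) (by omega)
    have hsq : ∀ i < n - t, -H - 1 ≤ (sq ((fun i => c (t + i)) i) ((fun i => c (t + i)) (i + 1))).2 ∧
        (sq ((fun i => c (t + i)) i) ((fun i => c (t + i)) (i + 1))).2 ≤ H := by
      intro i hi
      have a1 := hp.1.inn (t + i) (by omega) (by omega)
      have a2 := hp.1.diags (t + i) (by omega)
      have a3 : -H - 1 ≤ (c (t + i + 1)).2 := by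
        rcases Nat.lt_or_ge (t + i + 1) n with h3 | h3
        · have := hp.1.inn (t + i + 1) (by omega) h3
          have := this.2.2.1
          omega
        · rw [show t + i + 1 = n by omega]; exact hex.2.1
      have a4 := a1.2.2.1
      have a5 := a1.2.2.2
      unfold Diag at a2
      simp only [sq]
      rw [show t + (i + 1) = t + i + 1 by omega]
      omega
    constructor
    · intro h1 h2 h3
      refine band_block (hpath ⟨(c n).1, (c n).2, true⟩ ⟨rfl, Or.inl rfl⟩) rfl rfl hturn hsq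
        ?_ ?_ hR (Or.inl ⟨?_, ?_⟩) hw hf hab ha hb <;> simp only <;> omega
    · intro h1 h2 h3
      refine band_block (hpath ⟨(c n).1, (c n).2, true⟩ ⟨rfl, Or.inl rfl⟩) rfl rfl hturn hsq
        ?_ ?_ hR (Or.inr ⟨?_, ?_⟩) hw hf hab ha hb <;> simp only <;> omega
  have k1 := key hp hu hv
  have k2 := key hp.rev hv hu
  simp only [Nat.sub_self] at k2
  exact ⟨fun h1 h2 h3 => ⟨k1.1 h1 h2, k2.1 h1 h3⟩, fun h1 h2 h3 => ⟨k1.2 h1 h2, k2.2 h1 h3⟩⟩

end

section

variable {D : Finset (ℤ × ℤ)} {u v : ℤ × ℤ} {c : ℕ → ℤ × ℤ} {n t : ℕ} {r r' : Ray} {hh : ℤ}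
  {S S' : Finset (ℤ × ℤ)}

lemma mix_inner (hp : Path (· ∈ S) D u v c n t) :
    ∀ x ∈ inner c n, (x ∈ mix (expl D u v S) S S' ↔ x ∈ S) :=
  fun _ hx => mix_on ((mem_expl_of_path hp).2 hx)

lemma mix_outer (hp : Path (· ∈ S) D u v c n t) {x : ℤ × ℤ} (hx : x ∉ inner c n) :
    (x ∈ mix (expl D u v S) S S' ↔ x ∈ S') :=
  mix_off (fun h => hx ((mem_expl_of_path hp).1 h))

/-- near exits: the closing lemma after resampling -/
theorem near_mix (hp : Path (· ∈ S) D u v c n t) (he : Ends hh D c n r r')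
    (hsame : r.up = r'.up) {R Rt : Set (ℤ × ℤ)}
    (hR : ∀ v ∈ R, r.Off v ∧ r'.Off v ∧ c 0 ≠ v ∧ c n ≠ v)
    (hRt : ∀ v ∈ Rt, Byd2 r'.up hh v.2) {a b : ℤ × ℤ}
    (hw : Conn (· ∈ S') R a b) (hw' : Conn (· ∈ S') Rt a b) (ha : (a.1 + a.2) % 2 = 0)
    (ha2 : Byd r'.up (hh + 2) a.2) (hb2 : Byd r'.up (hh + 2) b.2)
    (h1 : a.1 ≤ min r.col r'.col) (h2 : max r.col r'.col < b.1)
    (hk : (min r.col r'.col + a.1) % 2 = 0) {W H : ℤ} (hD : (D : Set (ℤ × ℤ)) ⊆ rect W H)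
    (hRD : R ⊆ rect W H) (hRtD : Rt ⊆ rect W H) (hn : c n ∈ rect W H) :
    ¬ Thru (· ∈ mix (expl D u v S) S S') (rect W H) u v := by
  have hhp := he.hh
  have hmT := near_close (M'' := (· ∈ mix (expl D u v S) S S')) (M' := (· ∈ S')) hp.1 he hsame
    (mix_inner hp) hR (fun v _ hv' => mix_outer hp hv') hRt (fun v hv => mix_outer hp ?_) hw hw' ha
    ha2 hb2 h1 h2 hk hD hRD hRtD hn hp.2.1
  · rwa [hp.2.2.1, hp.2.2.2] at hmT
  · intro hx
    have h3 := he.hD v (hp.1.inner_sub hx)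
    have h4 := hRt v hv
    unfold Byd2 at h4
    split_ifs at h4 <;> omega

/-- the face of colour `k` next to the centre is on the boundary of its colour -/
lemma Path.fc_mem {M : ℤ × ℤ → Prop} {D : Set (ℤ × ℤ)} (hp : Path M D u v c n t) (k : ℤ) :
    fc k (sq u v) ∈ Bd k c n := ⟨t, hp.2.1, by rw [hp.2.2.1, hp.2.2.2]⟩

/-- far exits: the U-lemma after resampling, at the forward exit -/
theorem far_mix (hp : Path (· ∈ S) D u v c n t) (he : Ends hh D c n r r') {R : Set (ℤ × ℤ)}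
    (hR : ∀ v ∈ R, r.Off v ∧ r'.Off v ∧ c 0 ≠ v ∧ c n ≠ v) {a b : ℤ × ℤ}
    (hw : Conn (· ∈ S') R a b) (ha : (a.1 + a.2) % 2 = 0) (ha2 : Byd r'.up hh a.2)
    (hb2 : Byd r'.up hh b.2) (h1 : a.1 ≤ r'.col) (h2 : r'.col < b.1)
    (hfar : r.up = r'.up → (r.col < a.1 ∨ b.1 ≤ r.col)) :
    ((r'.col + a.1) % 2 = 0 →
      Conn (· ∈ mix (expl D u v S) S S') (R ∪ D) (fc a.1 (sq u v)) a) ∧
    ((r'.col + a.1) % 2 = 1 →
      Conn (· ∈ mix (expl D u v S) S S') (R ∪ D) (fc a.1 (sq u v)) b) := by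
  have h := hp.1.U_end (M'' := (· ∈ mix (expl D u v S) S S')) (M' := (· ∈ S')) he
    (mix_inner hp) hR (fun v _ hv' => mix_outer hp hv') hw ha ha2 hb2 h1 h2 hfar
  have hp' : Path (· ∈ mix (expl D u v S) S S') D u v c n t := hp.congr (mix_inner hp)
  have key : ∀ f ∈ Bd a.1 c n, ∀ x, Conn (· ∈ mix (expl D u v S) S S') R x f →
      Conn (· ∈ mix (expl D u v S) S S') (R ∪ D) (fc a.1 (sq u v)) x := by
    intro f hf x hx
    have e1 := hp'.1.bd_conn2 a.1 (hp.fc_mem a.1) hf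
    exact (e1.mono (fun y hy => Or.inr (hp.1.inner_sub hy))).trans
      (hx.symm.mono Set.subset_union_left)
  constructor
  · intro hk
    obtain ⟨f, hf, hx⟩ := h.1 hk
    exact key f hf a hx
  · intro hk
    obtain ⟨f, hf, hx⟩ := h.2 hk
    exact key f hf b hx

end

end TA
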