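import Pool.Agent.Helper69.TwoArm.Exit

/-!
Values of the side function beyond the slab, the U-lemma for exits, the closing lemma.
-/

set_option autoImplicit false

namespace TA

section

variable {M : ℤ × ℤ → Prop} {D : Set (ℤ × ℤ)} {c : ℕ → ℤ × ℤ} {n : ℕ} {r r' : Ray} {hh : ℤ}

lemma Ends.hgt (he : Ends hh D c n r r') (h : Traj M D c n) :
    ∀ t ≤ n, -hh - 1 ≤ (c t).2 ∧ (c t).2 ≤ hh + 1 := by
  intro t ht
  have e5 := he.hh
  rcases Nat.eq_zero_or_pos t with h0 | h0
  · subst h0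
    have e1 := he.e
    have e3 := he.y
    split_ifs at e3 <;> omega
  · rcases Nat.lt_or_ge t n with h3 | h3
    · have := he.hD _ (h.inn t h0 h3)
      omega
    · have h4 : t = n := by omega
      subst h4
      have e1 := he.e'
      have e3 := he.y'
      split_ifs at e3 <;> omega

/-- indicator of being left of a ray that points in direction `up` -/
def ind (s : Ray) (up : Bool) (X : ℤ) : ZMod 2 := if s.up = up ∧ X ≤ s.col then 1 else 0

lemma Ends.val (he : Ends hh D c n r r') (h : Traj M D c n) {f : ℤ × ℤ}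
    (hf : (f.1 + f.2) % 2 = 0) :
    (hh ≤ f.2 → sd c n r r' f = ind r true f.1 + ind r' true f.1) ∧
    (f.2 ≤ -hh → sd c n r r' f = ind r false f.1 + ind r' false f.1) := by
  have e5 := he.hh
  have hg := he.hgt h
  have ez : ∀ X Y : ℤ, (hh < Y ∨ Y < -hh - 1) → pathS c n X Y = 0 := by
    intro X Y hY
    unfold pathS
    refine Finset.sum_eq_zero fun t ht => ?_
    rw [Finset.mem_range] at ht
    rw [if_neg]
    rintro ⟨h1, -⟩
    have a1 := hg t ht.le
    have a2 := hg (t + 1) ht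
    have a3 := h.diags t ht
    unfold Diag at a3
    simp only [sq] at h1
    omega
  have er : ∀ (s : Ray), (s.y = if s.up then hh + 1 else -hh - 1) → ∀ X Y : ℤ,
      (hh < Y → s.rayS X Y = ind s true X) ∧ (Y < -hh - 1 → s.rayS X Y = ind s false X) ∧
      (-hh - 1 ≤ Y ∧ Y ≤ hh → s.rayS X Y = 0) := by
    intro s hs X Y
    obtain ⟨col, y, up⟩ := s
    unfold Ray.rayS ind
    cases up <;> simp only [if_true, Bool.false_eq_true, if_false, false_and, true_and,
        reduceCtorEq] at * <;>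
      refine ⟨fun hY => ?_, fun hY => ?_, fun hY => ?_⟩ <;>
      first
      | rfl
      | (split_ifs <;> first | rfl | (exfalso; omega))
  constructor
  · intro hY
    unfold sd side
    rcases lt_or_eq_of_le hY with h1 | h1
    · rw [ez _ _ (Or.inl h1), (er r he.y _ _).1 h1, (er r' he.y' _ _).1 h1, zero_add]
    · rw [← h1, (he.line h f.1).1, (er r he.y _ _).2.2 ⟨by omega, le_rfl⟩,
        (er r' he.y' _ _).2.2 ⟨by omega, le_rfl⟩, add_zero, add_zero]
      rfl
  · intro hY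
    unfold sd
    rw [← (h.pathR (he.at0 h) (he.atn h)).ul hf]
    unfold side
    rcases lt_or_eq_of_le hY with h1 | h1
    · rcases lt_or_ge (f.2 - 1) (-hh - 1) with h2 | h2
      · rw [ez _ _ (Or.inr h2), (er r he.y _ _).2.1 h2, (er r' he.y' _ _).2.1 h2, zero_add]
      · exfalso; omega
    · rw [h1, (he.line h f.1).2, (er r he.y _ _).2.2 ⟨by omega, by omega⟩,
        (er r' he.y' _ _).2.2 ⟨by omega, by omega⟩, add_zero, add_zero]
      rfl

/-- beyond the slab in direction `up` -/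
def Byd (up : Bool) (hh : ℤ) (y : ℤ) : Prop := if up then hh ≤ y else y ≤ -hh

lemma Ends.val2 (he : Ends hh D c n r r') (h : Traj M D c n) {f : ℤ × ℤ}
    (hf : (f.1 + f.2) % 2 = 0) {up : Bool} (hb : Byd up hh f.2) :
    sd c n r r' f = ind r up f.1 + ind r' up f.1 := by
  unfold Byd at hb
  cases up
  · exact (he.val h hf).2 (by simpa using hb)
  · exact (he.val h hf).1 (by simpa using hb)

/-- the last and the first medial edge -/
lemma Ends.last (he : Ends hh D c n r r') (h : Traj M D c n) (k : ℤ) :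
    Byd r'.up hh (fc k (sq (c (n - 1)) (c n))).2 ∧
      (fc k (sq (c (n - 1)) (c n))).1 = (if (r'.col + k) % 2 = 0 then r'.col else r'.col + 1) := by
  have e1 := he.e'
  have e2 := he.y'
  have e3 := he.col'
  have e5 := he.hh
  have a0 := he.n2 h
  have a1 := he.hD _ (h.inn (n - 1) (by omega) (by omega))
  have a3 := h.diags (n - 1) (by omega)
  rw [show n - 1 + 1 = n by omega] at a3
  have e4 := fc_spec k (sq (c (n - 1)) (c n))
  unfold Diag at a3
  generalize fc k (sq (c (n - 1)) (c n)) = f at *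
  simp only [sq] at e3 e4
  unfold Byd
  constructor
  · split_ifs at e2 ⊢ <;> omega
  · split_ifs <;> omega

lemma Ends.rev (he : Ends hh D c n r r') (h : Traj M D c n) :
    Ends hh D (fun t => c (n - t)) n r' r := by
  have hp := h.pos
  refine ⟨he.hD, he.hh, ?_, ?_, he.y', he.y, ?_, ?_⟩
  · simp only [Nat.sub_zero]
    rw [sq_comm]; exact he.col'
  · simp only [Nat.sub_self]
    rw [sq_comm, show n - (n - 1) = 1 by omega]; exact he.col
  · simp only [Nat.sub_zero]; exact he.e'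
  · simp only [Nat.sub_self]; exact he.e

/-- U-lemma at the end of a trajectory: a path of `M'` that goes around the exit (from the west
side to the east side or conversely, beyond the slab at its ends) -/
theorem Traj.U_end (h : Traj M D c n) (he : Ends hh D c n r r') {M' M'' : ℤ × ℤ → Prop}
    (hin : ∀ v ∈ inner c n, (M'' v ↔ M v)) {R : Set (ℤ × ℤ)}
    (hR : ∀ v ∈ R, r.Off v ∧ r'.Off v ∧ c 0 ≠ v ∧ c n ≠ v)
    (hR2 : ∀ v ∈ R, v ∉ inner c n → (M'' v ↔ M' v)) {a b : ℤ × ℤ}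
    (hw : Conn M' R a b) (ha : (a.1 + a.2) % 2 = 0) (ha2 : Byd r'.up hh a.2)
    (hb2 : Byd r'.up hh b.2) (h1 : a.1 ≤ r'.col) (h2 : r'.col < b.1)
    (hfar : r.up = r'.up → (r.col < a.1 ∨ b.1 ≤ r.col)) :
    ((r'.col + a.1) % 2 = 0 → ∃ f ∈ Bd a.1 c n, Conn M'' R a f) ∧
    ((r'.col + a.1) % 2 = 1 → ∃ f ∈ Bd a.1 c n, Conn M'' R b f) := by
  have hn := he.n2 h
  have hc := hw.color
  have hoff : ∀ v ∈ inner c n, r.Off v ∧ r'.Off v := fun v hv => he.off (h.inner_sub hv)
  have hl := he.last h a.1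
  have hlf := fc_spec a.1 (sq (c (n - 1)) (c n))
  have vl := he.val2 h hlf.2.1 hl.1
  have va := he.val2 h ha ha2
  have vb := he.val2 h (f := b) (by omega) hb2
  have hdist : ∀ X : ℤ, (X = a.1 ∨ X = b.1 ∨ X = r'.col ∨ X = r'.col + 1) →
      ind r r'.up X = ind r r'.up r'.col := by
    intro X hX
    unfold ind
    by_cases hu : r.up = r'.up
    · have := hfar hu
      simp only [hu, true_and]
      split_ifs <;> first | rfl | (exfalso; omega)
    · rw [if_neg (fun h' => hu h'.1), if_neg (fun h' => hu h'.1)]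
  have i1 : ∀ X : ℤ, X ≤ r'.col → ind r' r'.up X = 1 := fun X hX => if_pos ⟨rfl, hX⟩
  have i0 : ∀ X : ℤ, r'.col < X → ind r' r'.up X = 0 := fun X hX => if_neg (by omega)
  constructor
  · intro hk
    rw [if_pos hk] at hl
    rw [hl.2, hdist _ (by tauto), i1 _ le_rfl] at vl
    rw [hdist _ (by tauto), i1 _ h1] at va
    rw [hdist _ (by tauto), i0 _ h2] at vb
    have hn1 : c (n - 1 + 1) = c n := by rw [show n - 1 + 1 = n by omega]
    rcases h.U_core (he.at0 h) (he.atn h) hoff hin hR hR2 hw ha (k := a.1) (by omega)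
      (t := n - 1) (by omega) (by rw [va, hn1, vl]) with e | ⟨-, e⟩
    · exact e
    · exfalso
      rw [va, vb] at e
      have : ∀ x : ZMod 2, x + 0 ≠ x + 1 := by decide
      exact this _ e
  · intro hk
    rw [if_neg (by omega)] at hl
    rw [hl.2, hdist _ (by tauto), i0 _ (by omega)] at vl
    rw [hdist _ (by tauto), i1 _ h1] at va
    rw [hdist _ (by tauto), i0 _ h2] at vb
    have hn1 : c (n - 1 + 1) = c n := by rw [show n - 1 + 1 = n by omega]
    rcases h.U_core (he.at0 h) (he.atn h) hoff hin hR hR2 hw.symm (by omega) (k := a.1) (by omega)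
      (t := n - 1) (by omega) (by rw [vb, hn1, vl]) with e | ⟨-, e⟩
    · exact e
    · exfalso
      rw [va, vb] at e
      have : ∀ x : ZMod 2, x + 1 ≠ x + 0 := by decide
      exact this _ e

/-- a joined step where the ray may be crossed horizontally -/
lemma sd_joined_ray {M : ℤ × ℤ → Prop} (h : PathR c n r r') {f g v : ℤ × ℤ} (hv : IsTile v)
    (h0 : c 0 ≠ v) (hn : c n ≠ v)
    (ht : ∀ t, t + 1 < n → c (t + 1) = v → c (t + 2) = nx M (c t) (c (t + 1)))
    (ho : StpV M f g v) (hr : ∀ x, r.On x v.2 ↔ r.On x (v.2 - 1))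
    (hr2 : r.rayS v.1 (v.2 - 1) = r.rayS v.1 (v.2 + 1)) (hr' : r'.Off v) :
    sd c n r r' f + r.rayS f.1 f.2 = sd c n r r' g + r.rayS g.1 g.2 := by
  have e := opp_flip h hv ho.1
  have p := pas_joined h hv h0 hn ht
  have key : ∀ x y : ℤ, (x = v.1 ∨ x = v.1 - 1) → (y = v.2 ∨ y = v.2 - 1) →
      tot c n r r' x y = pas c n x y + r.ras x y := by
    intro x y hx hy
    unfold tot
    obtain ⟨a, b, c', d⟩ := hr'
    have : r'.ras x y = 0 := by
      apply ras_zero
      rcases hx with rfl | rfl <;> rcases hy with rfl | rfl <;> assumption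
    rw [this, add_zero]
  have hras : ∀ x y : ℤ, r.ras x y = r.rayS x y + r.rayS (x + 1) y := by
    intro x y
    unfold Ray.ras Ray.rayS
    by_cases h : (if r.up then r.y ≤ y else y < r.y)
    · by_cases h3 : x = r.col
      · rw [if_pos (show r.On x y from ⟨h3, h⟩), if_pos ⟨h3.le, h⟩, if_neg (by omega), add_zero]
      · rw [if_neg (fun h' => h3 h'.1)]
        by_cases h4 : x + 1 ≤ r.col
        · rw [if_pos ⟨by omega, h⟩, if_pos ⟨h4, h⟩, z2]
        · rw [if_neg (by omega), if_neg (by omega), add_zero]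
    · rw [if_neg (fun h' => h h'.2), if_neg (fun h' => h h'.2), if_neg (fun h' => h h'.2), add_zero]
  have ho' := ho.1
  unfold Opp at ho'
  by_cases h2 : f.2 = v.2
  · have e1 := e.1 h2
    have p1 := (p.1 (ho.2.2 h2)).1
    rw [key _ _ (Or.inr rfl) (Or.inl rfl), key _ _ (Or.inl rfl) (Or.inl rfl), hras, hras,
      show v.1 - 1 + 1 = v.1 by ring] at e1
    have e3 : r.rayS f.1 f.2 + r.rayS g.1 g.2 = r.rayS (v.1 - 1) v.2 + r.rayS (v.1 + 1) v.2 := by
      rcases ho' with ⟨a1, a2, ⟨a3, a4⟩ | ⟨a3, a4⟩⟩ | ho'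
      · rw [a1, a2, a3, a4]
      · rw [a1, a2, a3, a4, add_comm]
      · exfalso; omega
    have z := z2 (r.rayS v.1 v.2)
    apply add_eq_zero2
    have z3 := z2 (r.rayS (v.1 - 1) v.2)
    have z4 := z2 (r.rayS (v.1 + 1) v.2)
    linear_combination e1 + e3 + p1 + z + z3 + z4
  · have e1 := e.2 h2
    have p1 := (p.2 (fun h' => h2 (ho.2.1 h'))).1
    rw [key _ _ (Or.inl rfl) (Or.inr rfl), key _ _ (Or.inl rfl) (Or.inl rfl)] at e1
    have e3 : r.rayS f.1 f.2 = r.rayS g.1 g.2 := by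
      rcases ho' with ho' | ⟨a1, a2, ⟨a3, a4⟩ | ⟨a3, a4⟩⟩
      · exact absurd ho'.1 h2
      · rw [a1, a2, a3, a4, hr2]
      · rw [a1, a2, a3, a4, hr2]
    have e4 : r.ras v.1 (v.2 - 1) = r.ras v.1 v.2 := by
      unfold Ray.ras
      simp only [hr v.1]
    rw [e3]
    congr 1
    apply add_eq_zero2
    rw [e4] at e1
    have z := z2 (r.ras v.1 v.2)
    linear_combination e1 + p1 + z

/-- following a trajectory inside a larger one -/
lemma follow {M : ℤ × ℤ → Prop} {D'' : Set (ℤ × ℤ)} {c'' : ℕ → ℤ × ℤ} {n'' : ℕ}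
    (h'' : Traj M D'' c'' n'') (ht : ∀ t, t + 1 < n → c (t + 2) = nx M (c t) (c (t + 1)))
    {s t : ℕ} (h1 : c'' s = c t) (h2 : c'' (s + 1) = c (t + 1)) (hs : s < n'')
    (hD : ∀ i, t < i → i ≤ n → c i ∈ D'') :
    ∀ j, t + j + 1 ≤ n → s + j + 1 < n'' ∧ c'' (s + j) = c (t + j) ∧ c'' (s + j + 1) = c (t + j + 1) := by
  intro j
  induction j with
  | zero =>
    intro hj
    refine ⟨?_, h1, h2⟩
    by_contra hc
    have e : s + 1 = n'' := by omega
    have := h''.outn
    rw [← e, h2] at this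
    exact this (hD (t + 1) (by omega) (by omega))
  | succ j ih =>
    intro hj
    obtain ⟨e1, e2, e3⟩ := ih (by omega)
    have e4 : c'' (s + (j + 1) + 1) = c (t + (j + 1) + 1) := by
      have a1 := h''.turn (s + j) e1
      have a2 := ht (t + j) (by omega)
      rw [show s + (j + 1) + 1 = s + j + 2 by omega, show t + (j + 1) + 1 = t + j + 2 by omega,
        a1, a2, e2, e3]
    refine ⟨?_, e3, e4⟩
    by_contra hc
    have e : s + (j + 1) + 1 = n'' := by omega
    have := h''.outn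
    rw [← e, e4] at this
    exact this (hD (t + (j + 1) + 1) (by omega) (by omega))

/-- rectangles -/
def rect (W H : ℤ) : Set (ℤ × ℤ) := {v | -W ≤ v.1 ∧ v.1 ≤ W ∧ -H ≤ v.2 ∧ v.2 ≤ H}

lemma rect_ray {W H : ℤ} {u : ℤ × ℤ} (hu : u ∉ rect W H) : ∃ s : Ray, s.At u ∧
    ∀ v ∈ rect W H, s.Off v := by
  unfold rect at hu
  simp only [Set.mem_ofPred_eq, not_and_or, not_le] at hu
  have off : ∀ s : Ray, (∀ v ∈ rect W H, ∀ x y : ℤ, (x = v.1 ∨ x = v.1 - 1) →
      (y = v.2 ∨ y = v.2 - 1) → ¬ s.On x y) → ∀ v ∈ rect W H, s.Off v := by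
    intro s hs v hv
    exact ⟨hs v hv _ _ (Or.inl rfl) (Or.inl rfl), hs v hv _ _ (Or.inr rfl) (Or.inl rfl),
      hs v hv _ _ (Or.inl rfl) (Or.inr rfl), hs v hv _ _ (Or.inr rfl) (Or.inr rfl)⟩
  rcases hu with hu | hu | hu | hu
  · refine ⟨⟨u.1 - 1, u.2, true⟩, ⟨rfl, Or.inr rfl⟩, off _ ?_⟩
    rintro v ⟨h1, h2, h3, h4⟩ x y hx hy ⟨e1, e2⟩
    simp only at e1
    omega
  · refine ⟨⟨u.1, u.2, true⟩, ⟨rfl, Or.inl rfl⟩, off _ ?_⟩
    rintro v ⟨h1, h2, h3, h4⟩ x y hx hy ⟨e1, e2⟩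
    simp only at e1
    omega
  · refine ⟨⟨u.1, u.2, false⟩, ⟨rfl, Or.inl rfl⟩, off _ ?_⟩
    rintro v ⟨h1, h2, h3, h4⟩ x y hx hy ⟨e1, e2⟩
    simp only [Bool.false_eq_true, if_false] at e2
    omega
  · refine ⟨⟨u.1, u.2, true⟩, ⟨rfl, Or.inl rfl⟩, off _ ?_⟩
    rintro v ⟨h1, h2, h3, h4⟩ x y hx hy ⟨e1, e2⟩
    simp only [if_true] at e2
    omega

end

end TA
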