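import Pool.Agent.Helper69.TwoArm.Defs

/-!
Interfaces: no repetition, boundary faces, the side function along steps, the U-lemma.
-/

set_option autoImplicit false

namespace TA

/-- the four medial edges of the tile `v` are not on the ray -/
def Ray.Off (r : Ray) (v : ℤ × ℤ) : Prop :=
  ¬ r.On v.1 v.2 ∧ ¬ r.On (v.1 - 1) v.2 ∧ ¬ r.On v.1 (v.2 - 1) ∧ ¬ r.On (v.1 - 1) (v.2 - 1)

lemma ras_zero {r : Ray} {x y : ℤ} (h : ¬ r.On x y) : r.ras x y = 0 := if_neg h

/-- the endpoints of a medial edge -/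
lemma sq_cases {u w : ℤ × ℤ} {x y : ℤ} (hu : IsTile u) (h : Diag u w) (hs : sq u w = (x, y)) :
    ((x + y) % 2 = 1 ∧ ((u = (x, y) ∧ w = (x + 1, y + 1)) ∨ (u = (x + 1, y + 1) ∧ w = (x, y)))) ∨
    ((x + y) % 2 = 0 ∧ ((u = (x + 1, y) ∧ w = (x, y + 1)) ∨ (u = (x, y + 1) ∧ w = (x + 1, y)))) := by
  obtain ⟨u1, u2⟩ := u
  obtain ⟨w1, w2⟩ := w
  unfold sq at hs
  unfold Diag at h
  unfold IsTile at hu
  obtain ⟨k, hk⟩ := hu
  simp only [Prod.mk.injEq] at *
  obtain ⟨h1, h2⟩ := h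
  obtain ⟨h3, h4⟩ := hs
  omega

lemma Diag.tile {u v : ℤ × ℤ} (hu : IsTile u) (h : Diag u v) : IsTile v := by
  unfold IsTile at *
  unfold Diag at h
  obtain ⟨k, hk⟩ := hu
  rcases h with ⟨h1 | h1, h2 | h2⟩
  · exact ⟨k + 1, by omega⟩
  · exact ⟨k, by omega⟩
  · exact ⟨k, by omega⟩
  · exact ⟨k - 1, by omega⟩

lemma nx_true {M : ℤ × ℤ → Prop} {u v : ℤ × ℤ} (h : M v) : nx M u v = (2 * v.1 - u.1, u.2) :=
  if_pos h

lemma nx_false {M : ℤ × ℤ → Prop} {u v : ℤ × ℤ} (h : ¬ M v) : nx M u v = (u.1, 2 * v.2 - u.2) :=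
  if_neg h

lemma nx_diag {M : ℤ × ℤ → Prop} {u v : ℤ × ℤ} (h : Diag u v) : Diag v (nx M u v) := by
  by_cases hv : M v
  · rw [nx_true hv]; unfold Diag at *; simp only; omega
  · rw [nx_false hv]; unfold Diag at *; simp only; omega

lemma nx_nx {M : ℤ × ℤ → Prop} (u v : ℤ × ℤ) : nx M (nx M u v) v = u := by
  by_cases hv : M v
  · rw [nx_true hv, nx_true hv]; ext <;> simp
  · rw [nx_false hv, nx_false hv]; ext <;> simp

lemma nx_congr {M M' : ℤ × ℤ → Prop} {u v : ℤ × ℤ} (h : M v ↔ M' v) : nx M u v = nx M' u v := by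
  by_cases hv : M v
  · rw [nx_true hv, nx_true (h.1 hv)]
  · rw [nx_false hv, nx_false (fun h' => hv (h.2 h'))]

section path

variable {M : ℤ × ℤ → Prop} {D : Set (ℤ × ℤ)} {c : ℕ → ℤ × ℤ} {n : ℕ}

lemma Traj.diags (h : Traj M D c n) : ∀ t < n, Diag (c t) (c (t + 1)) := by
  intro t
  induction t with
  | zero => intro _; exact h.diag
  | succ t ih =>
    intro ht
    rw [h.turn t ht]
    exact nx_diag (ih (by omega))

lemma Traj.tiles (h : Traj M D c n) : ∀ t ≤ n, IsTile (c t) := by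
  intro t
  induction t with
  | zero => intro _; exact h.tile
  | succ t ih => intro ht; exact (h.diags t ht).tile (ih (by omega))

/-- the colour on the left, a constant of the motion -/
def lc (u v : ℤ × ℤ) : ZMod 2 := (u.1 : ZMod 2) + if (v.1 - u.1) = (v.2 - u.2) then 1 else 0

lemma lc_rev {u v : ℤ × ℤ} (h : Diag u v) : lc v u = lc u v + 1 := by
  unfold lc
  have h2 : (u.1 - v.1 = u.2 - v.2) ↔ (v.1 - u.1 = v.2 - u.2) := by omega
  simp only [h2]
  have h3 : (v.1 : ZMod 2) = u.1 + 1 := by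
    unfold Diag at h
    rcases h.1 with h1 | h1
    · rw [h1]; push_cast; rfl
    · rw [h1]; push_cast
      have : (-1 : ZMod 2) = 1 := by decide
      rw [sub_eq_add_neg, this]
  rw [h3]; ring

lemma lc_nx {M : ℤ × ℤ → Prop} {u v : ℤ × ℤ} (h : Diag u v) : lc v (nx M u v) = lc u v := by
  have h3 : (v.1 : ZMod 2) = u.1 + 1 := by
    unfold Diag at h
    rcases h.1 with h1 | h1
    · rw [h1]; push_cast; rfl
    · rw [h1]; push_cast
      have : (-1 : ZMod 2) = 1 := by decide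
      rw [sub_eq_add_neg, this]
  unfold lc
  by_cases hv : M v
  · rw [nx_true hv]
    simp only
    have h2 : (2 * v.1 - u.1 - v.1 = u.2 - v.2) ↔ ¬ (v.1 - u.1 = v.2 - u.2) := by
      unfold Diag at h; omega
    simp only [h2, h3]
    by_cases h4 : v.1 - u.1 = v.2 - u.2
    · rw [if_neg (not_not.2 h4), if_pos h4, add_zero]
    · rw [if_pos h4, if_neg h4, add_zero, add_assoc]
      have : (1 : ZMod 2) + 1 = 0 := by decide
      rw [this, add_zero]
  · rw [nx_false hv]
    simp only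
    have h2 : (u.1 - v.1 = 2 * v.2 - u.2 - v.2) ↔ ¬ (v.1 - u.1 = v.2 - u.2) := by
      unfold Diag at h; omega
    simp only [h2, h3]
    by_cases h4 : v.1 - u.1 = v.2 - u.2
    · rw [if_neg (not_not.2 h4), if_pos h4, add_zero]
    · rw [if_pos h4, if_neg h4, add_zero, add_assoc]
      have : (1 : ZMod 2) + 1 = 0 := by decide
      rw [this, add_zero]

lemma Traj.lc_const (h : Traj M D c n) : ∀ t < n, lc (c t) (c (t + 1)) = lc (c 0) (c 1) := by
  intro t
  induction t with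
  | zero => intro _; rfl
  | succ t ih =>
    intro ht
    rw [← ih (by omega), h.turn t ht]
    exact lc_nx (h.diags t (by omega))

/-- backward uniqueness: equal directed edges have equal pasts -/
lemma back_eq {c' : ℕ → ℤ × ℤ} {n' : ℕ} {D' : Set (ℤ × ℤ)}
    (h : ∀ t, t + 1 < n → c (t + 2) = nx M (c t) (c (t + 1)))
    (h' : ∀ t, t + 1 < n' → c' (t + 2) = nx M (c' t) (c' (t + 1))) :
    ∀ (j s t : ℕ), s + j < n → t + j < n' → c (s + j) = c' (t + j) → c (s + j + 1) = c' (t + j + 1) →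
      c s = c' t ∧ c (s + 1) = c' (t + 1) := by
  intro j
  induction j with
  | zero => intro s t _ _ h1 h2; exact ⟨h1, h2⟩
  | succ j ih =>
    intro s t hs ht h1 h2
    have e1 : c (s + j) = c' (t + j) := by
      have a1 := h (s + j) (by omega)
      have a2 := h' (t + j) (by omega)
      have b1 : nx M (c (s + j + 2)) (c (s + j + 1)) = c (s + j) := by rw [a1, nx_nx]
      have b2 : nx M (c' (t + j + 2)) (c' (t + j + 1)) = c' (t + j) := by rw [a2, nx_nx]
      rw [← b1, ← b2]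
      rw [show s + j + 2 = s + (j + 1) + 1 by omega, show s + j + 1 = s + (j + 1) by omega,
        show t + j + 2 = t + (j + 1) + 1 by omega, show t + j + 1 = t + (j + 1) by omega, h1, h2]
    exact ih s t (by omega) (by omega) e1
      (by rw [show s + j + 1 = s + (j + 1) by omega, show t + j + 1 = t + (j + 1) by omega, h1])

/-- forward uniqueness -/
lemma forw_eq {c' : ℕ → ℤ × ℤ} {n' : ℕ}
    (h : ∀ t, t + 1 < n → c (t + 2) = nx M (c t) (c (t + 1)))
    (h' : ∀ t, t + 1 < n' → c' (t + 2) = nx M (c' t) (c' (t + 1))) {s t : ℕ}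
    (h1 : c s = c' t) (h2 : c (s + 1) = c' (t + 1)) :
    ∀ (j : ℕ), s + j < n → t + j < n' → c (s + j) = c' (t + j) ∧ c (s + j + 1) = c' (t + j + 1) := by
  intro j
  induction j with
  | zero => intro _ _; exact ⟨h1, h2⟩
  | succ j ih =>
    intro hs ht
    obtain ⟨e1, e2⟩ := ih (by omega) (by omega)
    refine ⟨e2, ?_⟩
    have a1 := h (s + j) (by omega)
    have a2 := h' (t + j) (by omega)
    rw [show s + (j + 1) + 1 = s + j + 2 by omega, show t + (j + 1) + 1 = t + j + 2 by omega,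
      a1, a2, e1, e2]

/-- two trajectories with a common directed edge agree -/
lemma Traj.unique {c' : ℕ → ℤ × ℤ} {n' : ℕ} (h : Traj M D c n) (h' : Traj M D c' n') {s t : ℕ}
    (hs : s < n) (ht : t < n') (h1 : c s = c' t) (h2 : c (s + 1) = c' (t + 1)) :
    s = t ∧ n = n' ∧ ∀ i ≤ n, c i = c' i := by
  have key : ∀ {c c' : ℕ → ℤ × ℤ} {n n' : ℕ}, Traj M D c n → Traj M D c' n' → ∀ {s t : ℕ},
      s < n → t < n' → c s = c' t → c (s + 1) = c' (t + 1) → ¬ s < t := by
    intro c c' n n' h h' s t hs ht h1 h2 hst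
    have := back_eq (D' := D) h.turn h'.turn s 0 (t - s) (by omega) (by omega)
      (by rw [show t - s + s = t by omega, Nat.zero_add]; exact h1)
      (by rw [show t - s + s = t by omega, Nat.zero_add]; exact h2)
    exact h.out0 (this.1 ▸ h'.inn (t - s) (by omega) (by omega))
  have hst : s = t := by
    have a1 := key h h' hs ht h1 h2
    have a2 := key h' h ht hs h1.symm h2.symm
    omega
  subst hst
  have h0 := back_eq (D' := D) h.turn h'.turn s 0 0 (by omega) (by omega)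
    (by rw [Nat.zero_add]; exact h1) (by rw [Nat.zero_add]; exact h2)
  have hf := forw_eq h.turn h'.turn h0.1 h0.2
  have key2 : ∀ {c c' : ℕ → ℤ × ℤ} {n n' : ℕ}, Traj M D c n → Traj M D c' n' →
      c 0 = c' 0 → c (0 + 1) = c' (0 + 1) → ¬ n < n' := by
    intro c c' n n' h h' h1 h2 hn
    have := forw_eq h.turn h'.turn h1 h2 (n - 1) (by have := h.pos; omega) (by omega)
    have e := this.2
    rw [show 0 + (n - 1) + 1 = n by have := h.pos; omega] at e
    exact h.outn (e ▸ h'.inn n h.pos hn)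
  have hnn : n = n' := by
    have a1 := key2 h h' h0.1 h0.2
    have a2 := key2 h' h h0.1.symm h0.2.symm
    omega
  refine ⟨rfl, hnn, fun i hi => ?_⟩
  rcases Nat.lt_or_ge i n with h3 | h3
  · have := (hf i (by omega) (by omega)).1
    simpa using this
  · have h4 : i = n := by omega
    have h5 := h.pos
    have := (hf (n - 1) (by omega) (by omega)).2
    rw [show 0 + (n - 1) + 1 = n by omega] at this
    rw [h4]; exact this

/-- no medial edge is used twice -/
lemma Traj.inj (h : Traj M D c n) : ∀ s < n, ∀ t < n, sq (c s) (c (s + 1)) = sq (c t) (c (t + 1)) →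
    s = t := by
  intro s hs t ht hst
  have e1 := sq_cases (h.tiles s hs.le) (h.diags s hs) (Prod.mk.eta (p := sq (c s) (c (s + 1)))).symm
  have e2 := sq_cases (h.tiles t ht.le) (h.diags t ht)
    ((Prod.mk.eta (p := sq (c t) (c (t + 1)))).symm)
  rw [hst] at e1
  have h3 : (c s = c t ∧ c (s + 1) = c (t + 1)) ∨ (c s = c (t + 1) ∧ c (s + 1) = c t) := by
    generalize (sq (c t) (c (t + 1))).1 = x at *
    generalize (sq (c t) (c (t + 1))).2 = y at *
    rcases e1 with ⟨p1, ⟨a1, a2⟩ | ⟨a1, a2⟩⟩ | ⟨p1, ⟨a1, a2⟩ | ⟨a1, a2⟩⟩ <;>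
    rcases e2 with ⟨p2, ⟨b1, b2⟩ | ⟨b1, b2⟩⟩ | ⟨p2, ⟨b1, b2⟩ | ⟨b1, b2⟩⟩ <;>
    first
    | exact Or.inl ⟨a1.trans b1.symm, a2.trans b2.symm⟩
    | exact Or.inr ⟨a1.trans b2.symm, a2.trans b1.symm⟩
    | (exfalso; omega)
  rcases h3 with ⟨h4, h5⟩ | ⟨h4, h5⟩
  · exact (h.unique h hs ht h4 h5).1
  · exfalso
    have e3 := h.lc_const s hs
    have e4 := h.lc_const t ht
    rw [h4, h5, lc_rev (h.diags t ht), e4] at e3
    have : ∀ a : ZMod 2, a + 1 ≠ a := by decide
    exact this _ e3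

end path

end TA
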