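import Pool.Agent.Helper69.TwoArm.ULemma

/-!
Exits at the top or bottom of a horizontal slab, the U-lemma and the closing lemma.
-/

set_option autoImplicit false

namespace TA

/-- following a path of joined tiles of `M'` in the configuration `M''` -/
theorem inv_walk {M' M'' : ℤ × ℤ → Prop} {R T B : Set (ℤ × ℤ)} (sg : ℤ × ℤ → ZMod 2) {k : ℤ}
    {s : ZMod 2}
    (h1 : ∀ v ∈ R, v ∉ T → (M'' v ↔ M' v) ∧
      ∀ f g, Opp f g v → (f.1 + f.2) % 2 = 0 → sg f = sg g)
    (h2 : ∀ v ∈ R, v ∈ T → ∀ f g, StpV M'' f g v → (f.1 + f.2) % 2 = 0 → sg f = sg g)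
    (h3 : ∀ v ∈ R, v ∈ T → ∀ f g, Opp f g v → ¬ StpV M'' f g v → (f.1 + f.2) % 2 = 0 →
      (f.1 + k) % 2 = 0 → f ∈ B ∨ sg f ≠ s)
    {a b : ℤ × ℤ} (hw : Conn M' R a b) (ha : (a.1 + a.2) % 2 = 0) (hk : (a.1 + k) % 2 = 0)
    (hs : sg a = s) :
    (∃ f ∈ B, Conn M'' R a f) ∨ (Conn M'' R a b ∧ sg b = s) := by
  induction hw with
  | refl => exact Or.inr ⟨Conn.refl _, hs⟩
  | @tail b' b hw' hst ih =>
    rcases ih with ih | ⟨ih1, ih2⟩
    · exact Or.inl ih
    · have hc := Conn.color (show Conn M' R a b' from hw')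
      obtain ⟨v, hv, hst⟩ := hst
      have hb' : (b'.1 + b'.2) % 2 = 0 := by omega
      have hk' : (b'.1 + k) % 2 = 0 := by omega
      by_cases hT : v ∈ T
      · by_cases hS : StpV M'' b' b v
        · right
          exact ⟨ih1.trans (Relation.ReflTransGen.single ⟨v, hv, hS⟩),
            (h2 v hv hT b' b hS hb') ▸ ih2⟩
        · rcases h3 v hv hT b' b hst.1 hS hb' hk' with e | e
          · exact Or.inl ⟨b', e, ih1⟩
          · exact absurd ih2 e
      · obtain ⟨e1, e2⟩ := h1 v hv hT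
        right
        exact ⟨ih1.trans (Relation.ReflTransGen.single ⟨v, hv, hst.congr e1⟩),
          (e2 b' b hst.1 hb') ▸ ih2⟩

section

variable {M : ℤ × ℤ → Prop} {D : Set (ℤ × ℤ)} {c : ℕ → ℤ × ℤ} {n : ℕ} {r r' : Ray}

/-- the basic form of the U-lemma -/
theorem Traj.U_core (h : Traj M D c n) (hr : r.At (c 0)) (hr' : r'.At (c n))
    (hoff : ∀ v ∈ inner c n, r.Off v ∧ r'.Off v) {M' M'' : ℤ × ℤ → Prop}
    (hin : ∀ v ∈ inner c n, (M'' v ↔ M v)) {R : Set (ℤ × ℤ)}
    (hR : ∀ v ∈ R, r.Off v ∧ r'.Off v ∧ c 0 ≠ v ∧ c n ≠ v)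
    (hR2 : ∀ v ∈ R, v ∉ inner c n → (M'' v ↔ M' v)) {k : ℤ} {a b : ℤ × ℤ}
    (hw : Conn M' R a b) (ha : (a.1 + a.2) % 2 = 0) (hk : (a.1 + k) % 2 = 0) {t : ℕ} (ht : t < n)
    (hs : sd c n r r' a = sd c n r r' (fc k (sq (c t) (c (t + 1))))) :
    (∃ f ∈ Bd k c n, Conn M'' R a f) ∨ (Conn M'' R a b ∧ sd c n r r' b = sd c n r r' a) := by
  have hp := h.pathR hr hr'
  have hs0 := h.sd_bd hr hr' hoff k t ht
  rw [hs, hs0]
  refine inv_walk (T := inner c n) (sd c n r r') ?_ ?_ ?_ hw ha hk (hs.trans hs0)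
  · intro v hv hT
    refine ⟨hR2 v hv hT, fun f g ho hf => ?_⟩
    obtain ⟨r1, r2, n1, n2⟩ := hR v hv
    refine sd_off hp (ho.tile hf) ho ?_ r1 r2
    intro t ht e
    rcases Nat.eq_zero_or_pos t with h0 | h0
    · exact n1 (h0 ▸ e)
    · rcases Nat.lt_or_ge t n with h3 | h3
      · exact hT ⟨t, h0, h3, e⟩
      · have : t = n := by omega
        exact n2 (this ▸ e)
  · intro v hv hT f g hst hf
    obtain ⟨r1, r2, n1, n2⟩ := hR v hv
    exact h.sd_step hr hr' (h.inner_sub hT) (hst.congr (hin v hT).symm) hf r1 r2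
  · intro v hv hT f g ho hn hf hk'
    obtain ⟨r1, r2, n1, n2⟩ := hR v hv
    have hn' : ¬ StpV M f g v := fun e => hn (e.congr (hin v hT))
    rcases h.perp hr hr' hT ho hn' hf r1 r2 hk' with e | ⟨⟨t, ht, hg⟩, e⟩
    · exact Or.inl e
    · right
      intro e2
      rw [hg, h.sd_bd hr hr' hoff k t ht, e2, z2] at e
      exact absurd e (by decide)

/-- reversed trajectory -/
lemma Traj.rev (h : Traj M D c n) : Traj M D (fun t => c (n - t)) n := by
  have hp := h.pos
  refine ⟨?_, ?_, hp, ?_, ?_, ?_, ?_⟩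
  · exact h.tiles _ (Nat.sub_le _ _)
  · have := (h.diags (n - 1) (by omega)).symm
    simp only [Nat.sub_zero]
    rwa [show n - 1 + 1 = n by omega] at this
  · simp only [Nat.sub_zero]; exact h.outn
  · simp only [Nat.sub_self]; exact h.out0
  · intro t h1 h2
    exact h.inn _ (by omega) (by omega)
  · intro t ht
    have := h.turn (n - (t + 2)) (by omega)
    rw [show n - (t + 2) + 2 = n - t by omega, show n - (t + 2) + 1 = n - (t + 1) by omega] at this
    rw [this, nx_nx]

lemma inner_rev : inner (fun t => c (n - t)) n = inner c n := by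
  ext v
  constructor
  · rintro ⟨t, h1, h2, h3⟩
    exact ⟨n - t, by omega, by omega, h3⟩
  · rintro ⟨t, h1, h2, h3⟩
    refine ⟨n - t, by omega, by omega, ?_⟩
    simp only
    rw [show n - (n - t) = t by omega, h3]

lemma bd_rev (k : ℤ) : Bd k (fun t => c (n - t)) n = Bd k c n := by
  ext v
  constructor
  · rintro ⟨t, h1, h2⟩
    refine ⟨n - 1 - t, by omega, ?_⟩
    rw [h2, sq_comm]
    simp only
    rw [show n - (t + 1) = n - 1 - t by omega, show n - 1 - t + 1 = n - t by omega]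
  · rintro ⟨t, h1, h2⟩
    refine ⟨n - 1 - t, by omega, ?_⟩
    simp only
    rw [h2, sq_comm, show n - (n - 1 - t) = t + 1 by omega, show n - (n - 1 - t + 1) = t by omega]

/-- the trajectory leaves a set `D` contained in the slab `|y| ≤ h` at the top or bottom at both
ends; the rays continue the exits vertically -/
structure Ends (h : ℤ) (D : Set (ℤ × ℤ)) (c : ℕ → ℤ × ℤ) (n : ℕ) (r r' : Ray) : Prop where
  hD : ∀ v ∈ D, -h ≤ v.2 ∧ v.2 ≤ h
  hh : 0 ≤ h
  col : r.col = (sq (c 0) (c 1)).1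
  col' : r'.col = (sq (c (n - 1)) (c n)).1
  y : r.y = if r.up then h + 1 else -h - 1
  y' : r'.y = if r'.up then h + 1 else -h - 1
  e : (c 0).2 = r.y
  e' : (c n).2 = r'.y

variable {hh : ℤ}

lemma Ends.at0 (he : Ends hh D c n r r') (h : Traj M D c n) : r.At (c 0) := by
  have h1 := h.diag
  have h2 := he.col
  refine ⟨he.e.symm, ?_⟩
  rw [h2]
  unfold Diag at h1
  (first | omega | (simp only; omega) | (simp only [sq]; omega))

lemma Ends.atn (he : Ends hh D c n r r') (h : Traj M D c n) : r'.At (c n) := by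
  have h1 := h.diags (n - 1) (by have := h.pos; omega)
  have h2 := he.col'
  have h3 := h.pos
  rw [show n - 1 + 1 = n by omega] at h1
  refine ⟨he.e'.symm, ?_⟩
  rw [h2]
  unfold Diag at h1
  (first | omega | (simp only; omega) | (simp only [sq]; omega))

lemma Ends.n2 (he : Ends hh D c n r r') (h : Traj M D c n) : 2 ≤ n := by
  by_contra hn
  have h1 : n = 1 := by have := h.pos; omega
  subst h1
  have h2 := h.diag
  have e1 := he.e
  have e2 := he.e'
  have e3 := he.y
  have e4 := he.y'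
  have e5 := he.hh
  unfold Diag at h2
  split_ifs at e3 e4 <;> omega

lemma slab_off {v : ℤ × ℤ} {s : Ray} (hv : -hh ≤ v.2 ∧ v.2 ≤ hh)
    (hs : s.y = if s.up then hh + 1 else -hh - 1) : s.Off v := by
  obtain ⟨col, y, up⟩ := s
  unfold Ray.Off Ray.On
  cases up <;> simp only [if_true, Bool.false_eq_true, if_false] at * <;>
    refine ⟨?_, ?_, ?_, ?_⟩ <;> rintro ⟨_, e⟩ <;> omega

lemma Ends.off (he : Ends hh D c n r r') {v : ℤ × ℤ} (hv : v ∈ D) : r.Off v ∧ r'.Off v :=
  ⟨slab_off (he.hD v hv) he.y, slab_off (he.hD v hv) he.y'⟩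

/-- the path on the lines above or below the slab -/
lemma Ends.line (he : Ends hh D c n r r') (h : Traj M D c n) (X : ℤ) :
    pathS c n X hh = (if r.up = true ∧ X ≤ r.col then 1 else 0) +
        (if r'.up = true ∧ X ≤ r'.col then 1 else 0) ∧
    pathS c n X (-hh - 1) = (if r.up = false ∧ X ≤ r.col then 1 else 0) +
        (if r'.up = false ∧ X ≤ r'.col then 1 else 0) := by
  have hn2 := he.n2 h
  have e1 := he.e
  have e2 := he.e'
  have e3 := he.y
  have e4 := he.y'
  have e5 := he.hh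
  have key : ∀ Y : ℤ, (Y = hh ∨ Y = -hh - 1) → pathS c n X Y =
      (if (sq (c 0) (c 1)).2 = Y ∧ X ≤ (sq (c 0) (c 1)).1 then 1 else 0) +
      (if (sq (c (n - 1)) (c n)).2 = Y ∧ X ≤ (sq (c (n - 1)) (c n)).1 then 1 else 0) := by
    intro Y hY
    unfold pathS
    obtain ⟨m, rfl⟩ : ∃ m, n = m + 2 := ⟨n - 2, by omega⟩
    rw [Finset.sum_range_succ, Finset.sum_range_succ']
    rw [Finset.sum_eq_zero]
    · rw [zero_add, show m + 2 - 1 = m + 1 by omega, show m + 1 + 1 = m + 2 by omega]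
    · intro t ht
      rw [Finset.mem_range] at ht
      rw [if_neg]
      rintro ⟨h1, -⟩
      have a1 := he.hD _ (h.inn (t + 1) (by omega) (by omega))
      have a2 := he.hD _ (h.inn (t + 1 + 1) (by omega) (by omega))
      have a3 := h.diags (t + 1) (by omega)
      unfold Diag at a3
      simp only [sq] at h1
      omega
  have q1 : (sq (c 0) (c 1)).2 = if r.up then hh else -hh - 1 := by
    have a1 := he.hD _ (h.inn 1 (by omega) (by omega))
    have a3 := h.diag
    unfold Diag at a3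
    simp only [sq]
    split_ifs at e3 ⊢ <;> omega
  have q2 : (sq (c (n - 1)) (c n)).2 = if r'.up then hh else -hh - 1 := by
    have a1 := he.hD _ (h.inn (n - 1) (by omega) (by omega))
    have a3 := h.diags (n - 1) (by omega)
    rw [show n - 1 + 1 = n by omega] at a3
    unfold Diag at a3
    simp only [sq]
    split_ifs at e4 ⊢ <;> omega
  rw [key hh (Or.inl rfl), key (-hh - 1) (Or.inr rfl), q1, q2, ← he.col, ← he.col']
  have b1 : ((if r.up then hh else -hh - 1) = hh ↔ r.up = true) := by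
    cases hu : r.up
    · simp only [Bool.false_eq_true, if_false, iff_false]; omega
    · simp
  have b2 : ((if r'.up then hh else -hh - 1) = hh ↔ r'.up = true) := by
    cases hu : r'.up
    · simp only [Bool.false_eq_true, if_false, iff_false]; omega
    · simp
  have b3 : ((if r.up then hh else -hh - 1) = -hh - 1 ↔ r.up = false) := by
    cases hu : r.up
    · simp
    · simp only [if_true, Bool.true_eq_false, iff_false]; omega
  have b4 : ((if r'.up then hh else -hh - 1) = -hh - 1 ↔ r'.up = false) := by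
    cases hu : r'.up
    · simp
    · simp only [if_true, Bool.true_eq_false, iff_false]; omega
  refine ⟨?_, ?_⟩
  · simp only [b1, b2]
  · simp only [b3, b4]

end

end TA
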