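import Pool.Agent.Helper69.TwoArm.Near
import Pool.Agent.Helper57.Arm.Stop

/-!
The explored set of the interface through a medial edge is a stopping set.
-/

set_option autoImplicit false

namespace TA

open Arm57 (Stop Dec mix)

/-- the trajectory with its position at the directed medial edge -/
def Path (M : ℤ × ℤ → Prop) (D : Set (ℤ × ℤ)) (u v : ℤ × ℤ) (c : ℕ → ℤ × ℤ) (n t : ℕ) : Prop :=
  Traj M D c n ∧ t < n ∧ c t = u ∧ c (t + 1) = v

lemma thru_iff {M : ℤ × ℤ → Prop} {D : Set (ℤ × ℤ)} {u v : ℤ × ℤ} :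
    Thru M D u v ↔ ∃ c n t, Path M D u v c n t := Iff.rfl

lemma Thru.path {M : ℤ × ℤ → Prop} {D : Set (ℤ × ℤ)} {u v : ℤ × ℤ} (h : Thru M D u v) :
    ∃ c n t, Path M D u v c n t := h

lemma Path.congr {M M' : ℤ × ℤ → Prop} {D : Set (ℤ × ℤ)} {u v : ℤ × ℤ} {c : ℕ → ℤ × ℤ} {n t : ℕ}
    (h : Path M D u v c n t) (hM : ∀ x ∈ inner c n, (M' x ↔ M x)) : Path M' D u v c n t :=
  ⟨h.1.congr hM, h.2⟩

lemma Path.uniq {M : ℤ × ℤ → Prop} {D : Set (ℤ × ℤ)} {u v : ℤ × ℤ} {c c' : ℕ → ℤ × ℤ}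
    {n t n' t' : ℕ} (h : Path M D u v c n t) (h' : Path M D u v c' n' t') :
    t = t' ∧ n = n' ∧ ∀ i ≤ n, c i = c' i :=
  h.1.unique h'.1 h.2.1 h'.2.1 (h.2.2.1.trans h'.2.2.1.symm) (h.2.2.2.trans h'.2.2.2.symm)

lemma inner_congr {c c' : ℕ → ℤ × ℤ} {n : ℕ} (h : ∀ i ≤ n, c i = c' i) : inner c n = inner c' n := by
  ext x
  constructor
  · rintro ⟨t, h1, h2, rfl⟩; exact ⟨t, h1, h2, (h t h2.le).symm⟩
  · rintro ⟨t, h1, h2, rfl⟩; exact ⟨t, h1, h2, h t h2.le⟩

/-- the part of a trajectory inside a smaller domain -/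
lemma Traj.sub {M : ℤ × ℤ → Prop} {D D' : Set (ℤ × ℤ)} {c : ℕ → ℤ × ℤ} {n : ℕ}
    (h : Traj M D' c n) (hD : D ⊆ D') {t : ℕ} (ht : t < n) :
    ∃ s e, s ≤ t ∧ t < e ∧ e ≤ n ∧ Traj M D (fun i => c (s + i)) (e - s) := by
  classical
  have h0 : c 0 ∉ D := fun h' => h.out0 (hD h')
  have hn : c n ∉ D := fun h' => h.outn (hD h')
  obtain ⟨s, hs⟩ : ∃ s, s = Nat.findGreatest (fun i => c i ∉ D) t := ⟨_, rfl⟩
  have hs1 : s ≤ t := hs ▸ Nat.findGreatest_le t
  have hs2 : c s ∉ D := by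
    have := Nat.findGreatest_spec (P := fun i => c i ∉ D) (Nat.zero_le t) h0
    rw [← hs] at this; exact this
  have hs3 : ∀ i, s < i → i ≤ t → c i ∈ D := by
    intro i h1 h2
    have := Nat.findGreatest_is_greatest (P := fun i => c i ∉ D) (n := t) (k := i) (hs ▸ h1) h2
    exact not_not.1 this
  have hex : ∃ e, t < e ∧ c e ∉ D := ⟨n, ht, hn⟩
  obtain ⟨e, he⟩ : ∃ e, e = Nat.find hex := ⟨_, rfl⟩
  have he1 := Nat.find_spec hex
  rw [← he] at he1
  have he2 : e ≤ n := he ▸ Nat.find_min' hex ⟨ht, hn⟩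
  have he3 : ∀ i, t < i → i < e → c i ∈ D := by
    intro i h1 h2
    by_contra hc
    exact Nat.find_min hex (he ▸ h2) ⟨h1, hc⟩
  refine ⟨s, e, hs1, he1.1, he2, ?_⟩
  refine ⟨?_, ?_, by omega, ?_, ?_, ?_, ?_⟩
  · exact h.tiles (s + 0) (by omega)
  · exact h.diags s (by omega)
  · exact hs2
  · show c (s + (e - s)) ∉ D
    rw [show s + (e - s) = e by omega]; exact he1.2
  · intro i h1 h2
    show c (s + i) ∈ D
    rcases Nat.lt_or_ge t (s + i) with h3 | h3
    · exact he3 _ h3 (by omega)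
    · exact hs3 _ (by omega) h3
  · intro i hi
    exact h.turn (s + i) (by omega)

lemma Path.sub {M : ℤ × ℤ → Prop} {D D' : Set (ℤ × ℤ)} {u v : ℤ × ℤ} {c : ℕ → ℤ × ℤ} {n t : ℕ}
    (h : Path M D' u v c n t) (hD : D ⊆ D') :
    ∃ s e, s ≤ t ∧ t < e ∧ e ≤ n ∧ Path M D u v (fun i => c (s + i)) (e - s) (t - s) := by
  obtain ⟨s, e, h1, h2, h3, h4⟩ := h.1.sub hD h.2.1
  refine ⟨s, e, h1, h2, h3, h4, by omega, ?_, ?_⟩
  · show c (s + (t - s)) = u
    rw [show s + (t - s) = t by omega]; exact h.2.2.1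
  · show c (s + (t - s + 1)) = v
    rw [show s + (t - s + 1) = t + 1 by omega]; exact h.2.2.2

lemma Thru.mono {M : ℤ × ℤ → Prop} {D D' : Set (ℤ × ℤ)} {u v : ℤ × ℤ} (hD : D ⊆ D')
    (h : Thru M D' u v) : Thru M D u v := by
  obtain ⟨c, n, t, hp⟩ := h
  obtain ⟨s, e, -, -, -, h4⟩ := Path.sub hp hD
  exact ⟨_, _, _, h4⟩

/-- the trajectory in the smaller domain visits fewer tiles -/
lemma Path.inner_mono {M : ℤ × ℤ → Prop} {D D' : Set (ℤ × ℤ)} {u v : ℤ × ℤ} {c c' : ℕ → ℤ × ℤ}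
    {n t n' t' : ℕ} (h : Path M D u v c n t) (h' : Path M D' u v c' n' t') (hD : D ⊆ D') :
    inner c n ⊆ inner c' n' := by
  obtain ⟨s, e, h1, h2, h3, h4⟩ := h'.sub hD
  obtain ⟨a1, a2, a3⟩ := h.uniq h4
  rw [inner_congr a3]
  rintro x ⟨i, b1, b2, rfl⟩
  exact ⟨s + i, by omega, by omega, rfl⟩

open Classical in
/-- the explored set: the tiles of `D` visited by the interface through the directed medial edge
`(u, v)` until it leaves `D` at both ends; all of `D` if it does not leave `D` -/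
noncomputable def expl (D : Finset (ℤ × ℤ)) (u v : ℤ × ℤ) (S : Finset (ℤ × ℤ)) :
    Finset (ℤ × ℤ) :=
  D.filter (fun x => Thru (· ∈ S) D u v → ∃ c n t, Path (· ∈ S) D u v c n t ∧ x ∈ inner c n)

open Classical in
lemma mem_expl_of_path {D : Finset (ℤ × ℤ)} {u v : ℤ × ℤ} {S : Finset (ℤ × ℤ)} {c : ℕ → ℤ × ℤ}
    {n t : ℕ} (h : Path (· ∈ S) D u v c n t) {x : ℤ × ℤ} : x ∈ expl D u v S ↔ x ∈ inner c n := by
  unfold expl
  rw [Finset.mem_filter]
  constructor
  · rintro ⟨h1, h2⟩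
    obtain ⟨c', n', t', h3, h4⟩ := h2 ⟨c, n, t, h⟩
    obtain ⟨a1, a2, a3⟩ := h.uniq h3
    rw [inner_congr a3, a2]; exact h4
  · intro hx
    exact ⟨Finset.mem_coe.1 (h.1.inner_sub hx), fun _ => ⟨c, n, t, h, hx⟩⟩

open Classical in
lemma mem_expl_of_not {D : Finset (ℤ × ℤ)} {u v : ℤ × ℤ} {S : Finset (ℤ × ℤ)}
    (h : ¬ Thru (· ∈ S) D u v) : expl D u v S = D := by
  unfold expl
  rw [Finset.filter_true_of_mem]
  intro x _ h'
  exact absurd h' h

lemma expl_subset (D : Finset (ℤ × ℤ)) (u v : ℤ × ℤ) (S : Finset (ℤ × ℤ)) :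
    expl D u v S ⊆ D := by
  classical
  unfold expl
  exact Finset.filter_subset _ _

lemma agree {S S' T : Finset (ℤ × ℤ)} (h : S' ∩ T = S ∩ T) {x : ℤ × ℤ} (hx : x ∈ T) :
    (x ∈ S' ↔ x ∈ S) := by
  have := congrArg (x ∈ ·) h
  simp only [Finset.mem_inter, hx, and_true, eq_iff_iff] at this
  exact this

/-- every property of the exit path is decided by the explored set -/
lemma dec_path (F D : Finset (ℤ × ℤ)) (u v : ℤ × ℤ) (Q : (ℕ → ℤ × ℤ) → ℕ → ℕ → Prop) :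
    Dec F (expl D u v) (fun S => ∃ c n t, Path (· ∈ S) D u v c n t ∧ Q c n t) := by
  intro S _ S' _ h
  constructor
  · rintro ⟨c, n, t, hp, hQ⟩
    refine ⟨c, n, t, ?_, hQ⟩
    by_cases hT : Thru (· ∈ S) D u v
    · obtain ⟨c0, n0, t0, hp0⟩ := hT.path
      have hp0' : Path (· ∈ S') D u v c0 n0 t0 := hp0.congr
        (fun x hx => agree h ((mem_expl_of_path hp0).2 hx))
      obtain ⟨a1, a2, a3⟩ := hp.uniq hp0'
      refine hp.congr (fun x hx => ?_)
      rw [inner_congr a3, a2] at hx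
      exact (agree h ((mem_expl_of_path hp0).2 hx)).symm
    · refine hp.congr (fun x hx => (agree h ?_).symm)
      rw [mem_expl_of_not hT]
      exact Finset.mem_coe.1 (hp.1.inner_sub hx)
  · rintro ⟨c, n, t, hp, hQ⟩
    exact ⟨c, n, t, hp.congr (fun x hx => agree h ((mem_expl_of_path hp).2 hx)), hQ⟩

lemma dec_thru (F D : Finset (ℤ × ℤ)) (u v : ℤ × ℤ) :
    Dec F (expl D u v) (fun S => Thru (· ∈ S) D u v) := by
  have := dec_path F D u v (fun _ _ _ => True)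
  intro S hS S' hS' h
  have := this S hS S' hS' h
  simp only [and_true] at this
  exact this

/-- the explored set is a stopping set -/
lemma stop_expl (F D : Finset (ℤ × ℤ)) (u v : ℤ × ℤ) : Stop F (expl D u v) := by
  intro S hS S' hS' h
  by_cases hT : Thru (· ∈ S) D u v
  · obtain ⟨c, n, t, hp⟩ := hT.path
    have hp' : Path (· ∈ S') D u v c n t := hp.congr
      (fun x hx => agree h ((mem_expl_of_path hp).2 hx))
    ext x
    rw [mem_expl_of_path hp, mem_expl_of_path hp']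
  · have hT' : ¬ Thru (· ∈ S') D u v := fun h' => hT ((dec_thru F D u v S hS S' hS' h).1 h')
    rw [mem_expl_of_not hT, mem_expl_of_not hT']

/-- the explored set grows with the domain -/
lemma expl_mono {D D' : Finset (ℤ × ℤ)} (hD : D ⊆ D') (u v : ℤ × ℤ) (S : Finset (ℤ × ℤ)) :
    expl D u v S ⊆ expl D' u v S := by
  have hD2 : (D : Set (ℤ × ℤ)) ⊆ D' := by exact_mod_cast hD
  by_cases hT : Thru (· ∈ S) D' u v
  · obtain ⟨c', n', t', hp'⟩ := hT.path
    obtain ⟨s, e, -, -, -, hp⟩ := hp'.sub hD2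
    intro x hx
    rw [mem_expl_of_path hp] at hx
    rw [mem_expl_of_path hp']
    exact hp.inner_mono hp' hD2 hx
  · rw [mem_expl_of_not hT]
    exact (expl_subset D u v S).trans hD

/-- `mix` agrees with the first configuration on the explored set and with the second off it -/
lemma mix_on {T S S' : Finset (ℤ × ℤ)} {x : ℤ × ℤ} (hx : x ∈ T) : x ∈ mix T S S' ↔ x ∈ S := by
  unfold mix
  simp only [Finset.mem_union, Finset.mem_inter, Finset.mem_sdiff]
  tauto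

lemma mix_off {T S S' : Finset (ℤ × ℤ)} {x : ℤ × ℤ} (hx : x ∉ T) : x ∈ mix T S S' ↔ x ∈ S' := by
  unfold mix
  simp only [Finset.mem_union, Finset.mem_inter, Finset.mem_sdiff]
  tauto

/-- rectangle as a finite set -/
noncomputable def rectF (W H : ℤ) : Finset (ℤ × ℤ) := Finset.Icc (-W, -H) (W, H)

lemma coe_rectF (W H : ℤ) : (rectF W H : Set (ℤ × ℤ)) = rect W H := by
  ext x
  unfold rectF rect
  rw [Finset.mem_coe, Finset.mem_Icc, Prod.le_def, Prod.le_def, Set.mem_ofPred_eq]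
  tauto

/-- a crossing of a vertical band from bottom to top, and a path whose start is on one side of the
band and whose end is on the other side: impossible -/
lemma band_block {M : ℤ × ℤ → Prop} {c : ℕ → ℤ × ℤ} {n : ℕ} {r r' : Ray} (h : PathR c n r r')
    (hup : r.up = true) (hup' : r'.up = true)
    (ht : ∀ t, t + 1 < n → c (t + 2) = nx M (c t) (c (t + 1))) {H x1 x2 : ℤ}
    (hin : ∀ t < n, -H - 1 ≤ (sq (c t) (c (t + 1))).2 ∧ (sq (c t) (c (t + 1))).2 ≤ H)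
    (hy : -H - 1 ≤ r.y ∧ r.y ≤ H + 1) (hy' : -H - 1 ≤ r'.y ∧ r'.y ≤ H + 1)
    {R : Set (ℤ × ℤ)} (hR : ∀ v ∈ R, x1 ≤ v.1 ∧ v.1 ≤ x2)
    (hcol : (r.col + 1 < x1 ∧ x2 + 1 ≤ r'.col) ∨ (r'.col + 1 < x1 ∧ x2 + 1 ≤ r.col))
    {a b : ℤ × ℤ} (hw : Conn M R a b) (hf : (a.1 + a.2) % 2 = 0) (hab : a ≠ b)
    (ha : a.2 ≤ -H - 1) (hb : H + 1 ≤ b.2) : False := by
  have hoff : ∀ v ∈ R, c 0 ≠ v ∧ c n ≠ v ∧ r.Off v ∧ r'.Off v := by
    intro v hv
    have h1 := hR v hv
    obtain ⟨p1, p2⟩ := h.at0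
    obtain ⟨q1, q2⟩ := h.atn
    refine ⟨?_, ?_, ⟨?_, ?_, ?_, ?_⟩, ⟨?_, ?_, ?_, ?_⟩⟩
    · intro e; rw [e] at p2; omega
    · intro e; rw [e] at q2; omega
    all_goals (rintro ⟨e, -⟩; omega)
  have key := sd_conn h hoff ht hw hf
  have ha1 : x1 - 1 ≤ a.1 ∧ a.1 ≤ x2 + 1 := by
    rcases Relation.ReflTransGen.cases_head hw with e | ⟨f, ⟨v, hv, hs⟩, -⟩
    · exact absurd e hab
    · have h1 := hR v hv
      have h2 := hs.1
      unfold Opp at h2
      omega
  have hb1 : x1 - 1 ≤ b.1 ∧ b.1 ≤ x2 + 1 := by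
    rcases Relation.ReflTransGen.cases_tail hw with e | ⟨f, -, v, hv, hs⟩
    · exact absurd e.symm hab
    · have h1 := hR v hv
      have h2 := hs.1
      unfold Opp at h2
      omega
  have za : sd c n r r' a = 0 := by
    unfold sd
    rw [← h.ul hf]
    unfold side pathS Ray.rayS
    rw [Finset.sum_eq_zero, if_neg, if_neg]
    · decide
    · rw [if_pos hup']; omega
    · rw [if_pos hup]; omega
    · intro t ht'
      rw [Finset.mem_range] at ht'
      have := hin t ht'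
      rw [if_neg]; omega
  have zb : sd c n r r' b = 1 := by
    unfold sd side pathS
    rw [Finset.sum_eq_zero]
    · unfold Ray.rayS
      rcases hcol with ⟨c1, c2⟩ | ⟨c1, c2⟩
      · rw [if_neg (by rw [if_pos hup]; omega), if_pos (by rw [if_pos hup']; omega)]
        decide
      · rw [if_pos (by rw [if_pos hup]; omega), if_neg (by rw [if_pos hup']; omega)]
        decide
    · intro t ht'
      rw [Finset.mem_range] at ht'
      have := hin t ht'
      rw [if_neg]; omega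
  rw [za, zb] at key
  exact absurd key (by decide)

end TA
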