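import Pool.Agent.Helper69.TwoArm.Core

/-!
How the side function changes along steps between faces.
-/

set_option autoImplicit false

namespace TA

/-- the standing data: a lattice path of tiles with two vertical rays -/
structure PathR (c : ℕ → ℤ × ℤ) (n : ℕ) (r r' : Ray) : Prop where
  tiles : ∀ t ≤ n, IsTile (c t)
  diags : ∀ t < n, Diag (c t) (c (t + 1))
  at0 : r.At (c 0)
  atn : r'.At (c n)

/-- the side function on faces -/
def sd (c : ℕ → ℤ × ℤ) (n : ℕ) (r r' : Ray) (f : ℤ × ℤ) : ZMod 2 := side c n r r' f.1 f.2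

section

variable {c : ℕ → ℤ × ℤ} {n : ℕ} {r r' : Ray}

lemma PathR.ul (h : PathR c n r r') {X Y : ℤ} (hf : (X + Y) % 2 = 0) :
    side c n r r' X (Y - 1) = side c n r r' X Y :=
  side_up_low h.tiles h.diags h.at0 h.atn (Int.even_iff.2 hf)

/-- horizontal step through the tile `(p,q)`, upper edges -/
lemma PathR.flipH (_h : PathR c n r r') {p q : ℤ} :
    sd c n r r' (p - 1, q) + sd c n r r' (p + 1, q) = tot c n r r' (p - 1) q + tot c n r r' p q := by
  unfold sd
  have e1 := tot_eq c n r r' (p - 1) q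
  have e2 := tot_eq c n r r' p q
  rw [show p - 1 + 1 = p by ring] at e1
  rw [e1, e2]
  linear_combination - z2 (side c n r r' p q)

/-- horizontal step through the tile `(p,q)`, lower edges -/
lemma PathR.flipH' (h : PathR c n r r') {p q : ℤ} (hv : (p + q) % 2 = 1) :
    sd c n r r' (p - 1, q) + sd c n r r' (p + 1, q)
      = tot c n r r' (p - 1) (q - 1) + tot c n r r' p (q - 1) := by
  unfold sd
  simp only
  have e1 := tot_eq c n r r' (p - 1) (q - 1)
  have e2 := tot_eq c n r r' p (q - 1)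
  rw [show p - 1 + 1 = p by ring] at e1
  rw [← h.ul (X := p - 1) (Y := q) (by omega), ← h.ul (X := p + 1) (Y := q) (by omega), e1, e2]
  linear_combination - z2 (side c n r r' p (q - 1))

/-- vertical step through the tile `(p,q)`, east edges -/
lemma PathR.flipV (h : PathR c n r r') {p q : ℤ} (hv : (p + q) % 2 = 1) :
    sd c n r r' (p, q - 1) + sd c n r r' (p, q + 1) = tot c n r r' p (q - 1) + tot c n r r' p q := by
  unfold sd
  simp only
  have e1 := tot_eq c n r r' p (q - 1)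
  have e2 := tot_eq c n r r' p q
  have e3 := h.ul (X := p) (Y := q + 1) (by omega)
  rw [show q + 1 - 1 = q by ring] at e3
  have e4 := h.ul (X := p + 1) (Y := q) (by omega)
  rw [← e3, e1, e2, e4]
  linear_combination - z2 (side c n r r' (p + 1) q)

/-- vertical step through the tile `(p,q)`, west edges -/
lemma PathR.flipV' (h : PathR c n r r') {p q : ℤ} (hv : (p + q) % 2 = 1) :
    sd c n r r' (p, q - 1) + sd c n r r' (p, q + 1)
      = tot c n r r' (p - 1) (q - 1) + tot c n r r' (p - 1) q := by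
  unfold sd
  simp only
  have e1 := tot_eq c n r r' (p - 1) (q - 1)
  have e2 := tot_eq c n r r' (p - 1) q
  rw [show p - 1 + 1 = p by ring] at e1 e2
  have e3 := h.ul (X := p) (Y := q + 1) (by omega)
  rw [show q + 1 - 1 = q by ring] at e3
  have e4 := h.ul (X := p - 1) (Y := q) (by omega)
  rw [← e3, e1, e2, e4]
  linear_combination - z2 (side c n r r' (p - 1) q)

/-- no pass of an edge of a tile that is not on the path -/
lemma pas_zero (h : PathR c n r r') {v : ℤ × ℤ} (hv : IsTile v) (hn : ∀ t ≤ n, c t ≠ v) {x y : ℤ}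
    (hx : x = v.1 ∨ x = v.1 - 1) (hy : y = v.2 ∨ y = v.2 - 1) : pas c n x y = 0 := by
  unfold pas
  refine Finset.sum_eq_zero fun t ht => ?_
  rw [Finset.mem_range] at ht
  rw [if_neg]
  intro hs
  have e := sq_cases (h.tiles t ht.le) (h.diags t ht) hs
  have h1 := hn t ht.le
  have h2 := hn (t + 1) ht
  obtain ⟨k, hk⟩ := hv
  obtain ⟨v1, v2⟩ := v
  simp only at *
  rcases e with ⟨e1, ⟨a, b⟩ | ⟨a, b⟩⟩ | ⟨e1, ⟨a, b⟩ | ⟨a, b⟩⟩ <;>
    rw [a] at h1 <;> rw [b] at h2 <;> simp only [ne_eq, Prod.mk.injEq, not_and] at h1 h2 <;>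
    omega

/-- the indicator of two edges at a tile, summed over the path, when the path obeys `M` at `v` -/
lemma pas_pair (h : PathR c n r r') {v : ℤ × ℤ} (h0 : c 0 ≠ v) (hn : c n ≠ v)
    (φ : ℤ × ℤ → ZMod 2)
    (h1 : ∀ t < n, c t ≠ v → c (t + 1) ≠ v → φ (sq (c t) (c (t + 1))) = 0)
    (h2 : ∀ t, t + 1 < n → c (t + 1) = v →
      φ (sq (c t) (c (t + 1))) = φ (sq (c (t + 1)) (c (t + 2)))) :
    ∑ t ∈ Finset.range n, φ (sq (c t) (c (t + 1))) = 0 := by
  classical
  have e : ∀ t ∈ Finset.range n, φ (sq (c t) (c (t + 1)))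
      = (fun t => if t < n ∧ c t = v then φ (sq (c t) (c (t + 1))) else 0) t +
        (fun t => if t < n ∧ c t = v then φ (sq (c t) (c (t + 1))) else 0) (t + 1) := by
    intro t ht
    rw [Finset.mem_range] at ht
    simp only
    by_cases a : c t = v
    · have b : c (t + 1) ≠ v := by
        intro b
        have := h.diags t ht
        rw [a, b] at this
        unfold Diag at this
        omega
      rw [if_pos ⟨ht, a⟩, if_neg (fun h' => b h'.2), add_zero]
    · rw [if_neg (fun h' => a h'.2), zero_add]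
      by_cases b : c (t + 1) = v
      · have ht2 : t + 1 < n := by
          rcases Nat.lt_or_ge (t + 1) n with h3 | h3
          · exact h3
          · exfalso
            have : t + 1 = n := by omega
            exact hn (this ▸ b)
        rw [if_pos ⟨ht2, b⟩]
        exact h2 t ht2 b
      · rw [if_neg (fun h' => b h'.2)]
        exact h1 t ht a b
  rw [Finset.sum_congr rfl e, tele, if_neg (fun h' => h0 h'.2), if_neg (by omega), add_zero]

lemma pas_add (x y x' y' : ℤ) : pas c n x y + pas c n x' y' =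
    ∑ t ∈ Finset.range n, ((if sq (c t) (c (t + 1)) = (x, y) then (1 : ZMod 2) else 0) +
      (if sq (c t) (c (t + 1)) = (x', y') then 1 else 0)) := by
  unfold pas
  rw [Finset.sum_add_distrib]

/-- a turn at `v` in explicit form -/
lemma turn_sq {M : ℤ × ℤ → Prop} {u v : ℤ × ℤ} (hd : Diag u v) :
    (M v → (sq u v).1 ≠ (sq v (nx M u v)).1 ∧ (sq u v).2 = (sq v (nx M u v)).2 ∧
      (nx M u v).2 = u.2) ∧
    (¬ M v → (sq u v).1 = (sq v (nx M u v)).1 ∧ (sq u v).2 ≠ (sq v (nx M u v)).2 ∧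
      (nx M u v).1 = u.1) := by
  obtain ⟨u1, u2⟩ := u
  obtain ⟨v1, v2⟩ := v
  unfold Diag at hd
  simp only at hd
  refine ⟨fun h => ?_, fun h => ?_⟩
  · rw [nx_true h]; unfold sq; simp only
    refine ⟨?_, ?_, trivial⟩ <;> omega
  · rw [nx_false h]; unfold sq; simp only
    refine ⟨?_, ?_, trivial⟩ <;> omega

/-- at a tile that is only visited according to `M` and is not an end, the passes around the two
non-joined faces come in pairs -/
lemma pas_joined {M : ℤ × ℤ → Prop} (h : PathR c n r r') {v : ℤ × ℤ} (hv : IsTile v)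
    (h0 : c 0 ≠ v) (hn : c n ≠ v)
    (ht : ∀ t, t + 1 < n → c (t + 1) = v → c (t + 2) = nx M (c t) (c (t + 1))) :
    (M v → pas c n (v.1 - 1) v.2 + pas c n v.1 v.2 = 0 ∧
      pas c n (v.1 - 1) (v.2 - 1) + pas c n v.1 (v.2 - 1) = 0) ∧
    (¬ M v → pas c n v.1 (v.2 - 1) + pas c n v.1 v.2 = 0 ∧
      pas c n (v.1 - 1) (v.2 - 1) + pas c n (v.1 - 1) v.2 = 0) := by
  have key : ∀ x y x' y' : ℤ, (x = v.1 ∨ x = v.1 - 1) → (y = v.2 ∨ y = v.2 - 1) →
      (x' = v.1 ∨ x' = v.1 - 1) → (y' = v.2 ∨ y' = v.2 - 1) →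
      ((M v ∧ x ≠ x' ∧ y = y') ∨ (¬ M v ∧ x = x' ∧ y ≠ y')) →
      pas c n x y + pas c n x' y' = 0 := by
    intro x y x' y' hx hy hx' hy' hc
    rw [pas_add]
    refine pas_pair h h0 hn (fun s => (if s = (x, y) then (1 : ZMod 2) else 0) +
      (if s = (x', y') then 1 else 0)) ?_ ?_
    · intro t ht' a b
      have hz : ∀ x y : ℤ, (x = v.1 ∨ x = v.1 - 1) → (y = v.2 ∨ y = v.2 - 1) →
          sq (c t) (c (t + 1)) ≠ (x, y) := by
        intro x y hx hy hs
        have e := sq_cases (h.tiles t ht'.le) (h.diags t ht') hs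
        obtain ⟨k, hk⟩ := hv
        obtain ⟨v1, v2⟩ := v
        simp only at *
        rcases e with ⟨e1, ⟨e2, e3⟩ | ⟨e2, e3⟩⟩ | ⟨e1, ⟨e2, e3⟩ | ⟨e2, e3⟩⟩ <;>
          rw [e2] at a <;> rw [e3] at b <;> simp only [ne_eq, Prod.mk.injEq, not_and] at a b <;>
          omega
      simp only [if_neg (hz x y hx hy), if_neg (hz x' y' hx' hy'), add_zero]
    · intro t ht' b
      have hd := h.diags t (by omega)
      have e := turn_sq (M := M) hd
      rw [← ht t ht' b] at e
      have hd2 := h.diags (t + 1) ht'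
      rw [show t + 1 + 1 = t + 2 by omega] at hd2
      rw [b] at e hd hd2 ⊢
      generalize c t = u at *
      generalize c (t + 2) = w at *
      obtain ⟨u1, u2⟩ := u
      obtain ⟨v1, v2⟩ := v
      obtain ⟨w1, w2⟩ := w
      unfold Diag at hd hd2
      unfold sq at e ⊢
      simp only [Prod.mk.injEq] at *
      by_cases hM : M (v1, v2)
      · have e := e.1 hM
        have hc : x ≠ x' ∧ y = y' := by
          rcases hc with hc | hc
          · exact hc.2
          · exact absurd hM hc.1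
        split_ifs <;> first | rfl | (exfalso; omega)
      · have e := e.2 hM
        have hc : x = x' ∧ y ≠ y' := by
          rcases hc with hc | hc
          · exact absurd hc.1 hM
          · exact hc.2
        split_ifs <;> first | rfl | (exfalso; omega)
  constructor
  · intro hM
    exact ⟨key _ _ _ _ (Or.inr rfl) (Or.inl rfl) (Or.inl rfl) (Or.inl rfl)
        (Or.inl ⟨hM, by omega, rfl⟩),
      key _ _ _ _ (Or.inr rfl) (Or.inr rfl) (Or.inl rfl) (Or.inr rfl)
        (Or.inl ⟨hM, by omega, rfl⟩)⟩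
  · intro hM
    exact ⟨key _ _ _ _ (Or.inl rfl) (Or.inr rfl) (Or.inl rfl) (Or.inl rfl)
        (Or.inr ⟨hM, rfl, by omega⟩),
      key _ _ _ _ (Or.inr rfl) (Or.inr rfl) (Or.inr rfl) (Or.inl rfl)
        (Or.inr ⟨hM, rfl, by omega⟩)⟩

/-- opposite faces of a tile in explicit form -/
lemma opp_flip (h : PathR c n r r') {f g v : ℤ × ℤ} (hv : IsTile v) (ho : Opp f g v) :
    (f.2 = v.2 → sd c n r r' f + sd c n r r' g
      = tot c n r r' (v.1 - 1) v.2 + tot c n r r' v.1 v.2) ∧
    (f.2 ≠ v.2 → sd c n r r' f + sd c n r r' g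
      = tot c n r r' v.1 (v.2 - 1) + tot c n r r' v.1 v.2) := by
  have hv' : (v.1 + v.2) % 2 = 1 := Int.odd_iff.1 hv
  obtain ⟨f1, f2⟩ := f
  obtain ⟨g1, g2⟩ := g
  obtain ⟨v1, v2⟩ := v
  have eH := h.flipH (p := v1) (q := v2)
  have eV := h.flipV (p := v1) (q := v2) hv'
  unfold Opp at ho
  simp only at *
  rcases ho with ⟨a, b, ⟨e1, e2⟩ | ⟨e1, e2⟩⟩ | ⟨a, b, ⟨e1, e2⟩ | ⟨e1, e2⟩⟩
  · subst a b e1 e2
    exact ⟨fun _ => eH, fun h' => absurd rfl h'⟩
  · subst a b e1 e2
    exact ⟨fun _ => by rw [add_comm]; exact eH, fun h' => absurd rfl h'⟩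
  · subst a b e1 e2
    exact ⟨fun h' => by omega, fun _ => eV⟩
  · subst a b e1 e2
    exact ⟨fun h' => by omega, fun _ => by rw [add_comm]; exact eV⟩

lemma tot_off {v : ℤ × ℤ} (hr : r.Off v) (hr' : r'.Off v) {x y : ℤ} (hx : x = v.1 ∨ x = v.1 - 1)
    (hy : y = v.2 ∨ y = v.2 - 1) : tot c n r r' x y = pas c n x y := by
  unfold tot
  have key : ∀ s : Ray, s.Off v → s.ras x y = 0 := by
    intro s hs
    obtain ⟨a, b, c', d⟩ := hs
    apply ras_zero
    rcases hx with rfl | rfl <;> rcases hy with rfl | rfl <;> assumption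
  rw [key r hr, key r' hr', add_zero, add_zero]

lemma add_eq_zero2 {a b : ZMod 2} (h : a + b = 0) : a = b := by
  have : ∀ a b : ZMod 2, a + b = 0 → a = b := by decide
  exact this a b h

/-- steps through tiles that are not on the path do not change the side -/
lemma sd_off (h : PathR c n r r') {f g v : ℤ × ℤ} (hv : IsTile v) (ho : Opp f g v)
    (hn : ∀ t ≤ n, c t ≠ v) (hr : r.Off v) (hr' : r'.Off v) : sd c n r r' f = sd c n r r' g := by
  apply add_eq_zero2
  have e := opp_flip h hv ho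
  by_cases h2 : f.2 = v.2
  · rw [e.1 h2, tot_off hr hr' (Or.inr rfl) (Or.inl rfl), tot_off hr hr' (Or.inl rfl) (Or.inl rfl),
      pas_zero h hv hn (Or.inr rfl) (Or.inl rfl), pas_zero h hv hn (Or.inl rfl) (Or.inl rfl),
      add_zero]
  · rw [e.2 h2, tot_off hr hr' (Or.inl rfl) (Or.inr rfl), tot_off hr hr' (Or.inl rfl) (Or.inl rfl),
      pas_zero h hv hn (Or.inl rfl) (Or.inr rfl), pas_zero h hv hn (Or.inl rfl) (Or.inl rfl),
      add_zero]

/-- joined steps through tiles that are visited according to `M` do not change the side -/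
lemma sd_joined {M : ℤ × ℤ → Prop} (h : PathR c n r r') {f g v : ℤ × ℤ} (hv : IsTile v)
    (h0 : c 0 ≠ v) (hn : c n ≠ v)
    (ht : ∀ t, t + 1 < n → c (t + 1) = v → c (t + 2) = nx M (c t) (c (t + 1)))
    (ho : StpV M f g v) (hr : r.Off v) (hr' : r'.Off v) : sd c n r r' f = sd c n r r' g := by
  apply add_eq_zero2
  have e := opp_flip h hv ho.1
  have p := pas_joined h hv h0 hn ht
  by_cases h2 : f.2 = v.2
  · rw [e.1 h2, tot_off hr hr' (Or.inr rfl) (Or.inl rfl), tot_off hr hr' (Or.inl rfl) (Or.inl rfl)]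
    exact (p.1 (ho.2.2 h2)).1
  · rw [e.2 h2, tot_off hr hr' (Or.inl rfl) (Or.inr rfl), tot_off hr hr' (Or.inl rfl) (Or.inl rfl)]
    exact (p.2 (fun h' => h2 (ho.2.1 h'))).1

end

end TA
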