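import Pool.Agent.Helper69.TwoArm.Close

/-!
The closing lemma: a circuit of the outer colour around two exits on the same side closes the
interface before it leaves the larger rectangle.
-/

set_option autoImplicit false

namespace TA

section

variable {M : ℤ × ℤ → Prop} {D : Set (ℤ × ℤ)} {c : ℕ → ℤ × ℤ} {n : ℕ} {r r' : Ray} {hh : ℤ}

lemma Traj.congr (h : Traj M D c n) {M'' : ℤ × ℤ → Prop} (hin : ∀ v ∈ inner c n, (M'' v ↔ M v)) :
    Traj M'' D c n := by
  refine ⟨h.tile, h.diag, h.pos, h.out0, h.outn, h.inn, fun t ht => ?_⟩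
  rw [h.turn t ht]
  exact nx_congr (hin _ ⟨t + 1, by omega, ht, rfl⟩).symm

/-- the side function is constant along connections through tiles where the path obeys `M` -/
lemma sd_conn {M : ℤ × ℤ → Prop} (h : PathR c n r r') {R : Set (ℤ × ℤ)}
    (hR : ∀ v ∈ R, c 0 ≠ v ∧ c n ≠ v ∧ r.Off v ∧ r'.Off v)
    (ht : ∀ t, t + 1 < n → c (t + 2) = nx M (c t) (c (t + 1))) {a b : ℤ × ℤ}
    (hw : Conn M R a b) (ha : (a.1 + a.2) % 2 = 0) : sd c n r r' a = sd c n r r' b := by
  induction hw with
  | refl => rfl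
  | @tail b' b hw' hst ih =>
    obtain ⟨v, hv, hst⟩ := hst
    have hc := Conn.color (show Conn M R a b' from hw')
    obtain ⟨h1, h2, h3, h4⟩ := hR v hv
    rw [ih]
    exact sd_joined h (hst.1.tile (by omega)) h1 h2 (fun t ht' _ => ht t ht') hst h3 h4

lemma sd_conn_ray {M : ℤ × ℤ → Prop} (h : PathR c n r r') {R : Set (ℤ × ℤ)}
    (hR : ∀ v ∈ R, c 0 ≠ v ∧ c n ≠ v ∧ (∀ x, r.On x v.2 ↔ r.On x (v.2 - 1)) ∧
      r.rayS v.1 (v.2 - 1) = r.rayS v.1 (v.2 + 1) ∧ r'.Off v)
    (ht : ∀ t, t + 1 < n → c (t + 2) = nx M (c t) (c (t + 1))) {a b : ℤ × ℤ}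
    (hw : Conn M R a b) (ha : (a.1 + a.2) % 2 = 0) :
    sd c n r r' a + r.rayS a.1 a.2 = sd c n r r' b + r.rayS b.1 b.2 := by
  induction hw with
  | refl => rfl
  | @tail b' b hw' hst ih =>
    obtain ⟨v, hv, hst⟩ := hst
    have hc := Conn.color (show Conn M R a b' from hw')
    obtain ⟨h1, h2, h3, h4, h5⟩ := hR v hv
    rw [ih]
    exact sd_joined_ray h (hst.1.tile (by omega)) h1 h2 (fun t ht' _ => ht t ht') hst h3 h4 h5

/-- strictly beyond the slab -/
def Byd2 (up : Bool) (hh : ℤ) (y : ℤ) : Prop := if up then hh + 3 ≤ y else y ≤ -hh - 3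

/-- **Closing lemma.** Both exits of the interface from `D` are on the same side (`up`), in the
columns `r.col` and `r'.col`; in `M'` there is a path from `a` (west of both) to `b` (east of
both) below the exits, through `R`, and one strictly beyond the slab, through `Rt`; their colour is
the colour at the outer sides of the exits. Then in `M''` the interface does not leave the larger
rectangle. -/
theorem near_close (h : Traj M D c n) (he : Ends hh D c n r r') (hsame : r.up = r'.up)
    {M' M'' : ℤ × ℤ → Prop} (hin : ∀ v ∈ inner c n, (M'' v ↔ M v)) {R Rt : Set (ℤ × ℤ)}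
    (hR : ∀ v ∈ R, r.Off v ∧ r'.Off v ∧ c 0 ≠ v ∧ c n ≠ v)
    (hR2 : ∀ v ∈ R, v ∉ inner c n → (M'' v ↔ M' v))
    (hRt : ∀ v ∈ Rt, Byd2 r'.up hh v.2) (hRt2 : ∀ v ∈ Rt, (M'' v ↔ M' v)) {a b : ℤ × ℤ}
    (hw : Conn M' R a b) (hw' : Conn M' Rt a b) (ha : (a.1 + a.2) % 2 = 0)
    (ha2 : Byd r'.up (hh + 2) a.2) (hb2 : Byd r'.up (hh + 2) b.2)
    (h1 : a.1 ≤ min r.col r'.col) (h2 : max r.col r'.col < b.1)
    (hk : (min r.col r'.col + a.1) % 2 = 0) {W H : ℤ} (hD : D ⊆ rect W H) (hRD : R ⊆ rect W H)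
    (hRtD : Rt ⊆ rect W H) (hn : c n ∈ rect W H) {t : ℕ} (ht : t < n) :
    ¬ Thru M'' (rect W H) (c t) (c (t + 1)) := by
  rintro ⟨c'', n'', s, h'', hs, e1, e2⟩
  have hM : Traj M'' D c n := h.congr hin
  have hn2 := he.n2 h
  have hcol := hw.color
  have hhp := he.hh
  have hoff : ∀ v ∈ inner c n, r.Off v ∧ r'.Off v := fun v hv => he.off (h.inner_sub hv)
  have hbyd : ∀ y : ℤ, Byd r'.up (hh + 2) y → Byd r'.up hh y := by
    intro y hy
    unfold Byd at *
    split_ifs at * <;> omega
  -- the boundary faces of colour `k` have side value 0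
  obtain ⟨t0, ht0, f0, hf0⟩ : ∃ t0 < n, (fc a.1 (sq (c t0) (c (t0 + 1)))).1 = min r.col r'.col ∧
      Byd r'.up hh (fc a.1 (sq (c t0) (c (t0 + 1)))).2 := by
    rcases le_total r.col r'.col with hle | hle
    · have hl := (he.rev h).last h.rev a.1
      rw [min_eq_left hle] at hk ⊢
      rw [show n - (n - 1) = 0 + 1 by omega, Nat.sub_self, sq_comm] at hl
      refine ⟨0, by omega, ?_, ?_⟩
      · rw [hl.2, if_pos hk]
      · rw [← hsame]; exact hl.1
    · have hl := he.last h a.1
      rw [min_eq_right hle] at hk ⊢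
      refine ⟨n - 1, by omega, ?_, ?_⟩
      · rw [show n - 1 + 1 = n by omega, hl.2, if_pos hk]
      · rw [show n - 1 + 1 = n by omega]; exact hl.1
  have hmin1 : min r.col r'.col ≤ r.col := min_le_left _ _
  have hmin2 : min r.col r'.col ≤ r'.col := min_le_right _ _
  have hmax1 : r.col ≤ max r.col r'.col := le_max_left _ _
  have hmax2 : r'.col ≤ max r.col r'.col := le_max_right _ _
  have i1 : ∀ X : ℤ, X ≤ min r.col r'.col → ind r r'.up X + ind r' r'.up X = 0 := by
    intro X hX
    unfold ind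
    rw [if_pos ⟨hsame, by omega⟩, if_pos ⟨rfl, by omega⟩]
    decide
  have i0 : ∀ X : ℤ, max r.col r'.col < X → ind r r'.up X + ind r' r'.up X = 0 := by
    intro X hX
    unfold ind
    rw [if_neg (by omega), if_neg (by omega)]
    decide
  have vl : sd c n r r' (fc a.1 (sq (c t0) (c (t0 + 1)))) = 0 := by
    rw [he.val2 h (fc_spec a.1 _).2.1 hf0, f0]
    exact i1 _ le_rfl
  have va : sd c n r r' a = 0 := by
    rw [he.val2 h ha (hbyd _ ha2)]; exact i1 _ h1
  have vb : sd c n r r' b = 0 := by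
    rw [he.val2 h (by omega) (hbyd _ hb2)]; exact i0 _ h2
  -- the lower connection in the new configuration
  have hconn : Conn M'' (R ∪ inner c n) a b := by
    rcases h.U_core (he.at0 h) (he.atn h) hoff hin hR hR2 hw ha (k := a.1) (by omega) ht0
      (by rw [va, vl]) with ⟨f, hf, hcf⟩ | ⟨e, -⟩
    · rcases h.U_core (he.at0 h) (he.atn h) hoff hin hR hR2 hw.symm (by omega) (k := a.1)
        (by omega) ht0 (by rw [vb, vl]) with ⟨g, hg, hcg⟩ | ⟨e, -⟩
      · have e3 := hM.bd_conn2 a.1 hf hg
        exact ((hcf.mono Set.subset_union_left).trans (e3.mono Set.subset_union_right)).trans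
          (hcg.symm.mono Set.subset_union_left)
      · exact e.symm.mono Set.subset_union_left
    · exact e.mono Set.subset_union_left
  -- the continuation of the interface after its exit from `D`
  have hDi : ∀ i, t < i → i ≤ n → c i ∈ rect W H := by
    intro i hi hin'
    rcases Nat.lt_or_ge i n with h3 | h3
    · exact hD (h.inn i (by omega) h3)
    · have : i = n := by omega
      exact this ▸ hn
  obtain ⟨f1, f2, f3⟩ := follow h'' hM.turn e1 e2 hs hDi (n - 1 - t) (by omega)
  rw [show t + (n - 1 - t) + 1 = n by omega] at f3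
  obtain ⟨p, hp⟩ : ∃ p, p = s + (n - 1 - t) + 1 := ⟨_, rfl⟩
  rw [← hp] at f1 f3
  obtain ⟨rB, hB1, hB2⟩ := rect_ray h''.outn
  have hpath : PathR (fun i => c'' (p + i)) (n'' - p) r' rB := by
    refine ⟨fun i hi => h''.tiles _ (by omega), fun i hi => ?_, ?_, ?_⟩
    · exact h''.diags (p + i) (by omega)
    · show r'.At (c'' (p + 0))
      rw [Nat.add_zero, f3]; exact he.atn h
    · show rB.At (c'' (p + (n'' - p)))
      rw [show p + (n'' - p) = n'' by omega]; exact hB1
  have hturn : ∀ i, i + 1 < n'' - p → (fun i => c'' (p + i)) (i + 2)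
      = nx M'' ((fun i => c'' (p + i)) i) ((fun i => c'' (p + i)) (i + 1)) := by
    intro i hi
    exact h''.turn (p + i) (by omega)
  have ne0 : ∀ v : ℤ × ℤ, c n ≠ v → (fun i => c'' (p + i)) 0 ≠ v := by
    intro v hv
    simp only [Nat.add_zero]
    rw [f3]; exact hv
  have nen : ∀ v ∈ rect W H, (fun i => c'' (p + i)) (n'' - p) ≠ v := by
    intro v hv e
    simp only at e
    rw [show p + (n'' - p) = n'' by omega] at e
    exact h''.outn (e ▸ hv)
  have q1 := sd_conn hpath (R := R ∪ inner c n) (M := M'') (by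
    rintro v (hv | hv)
    · obtain ⟨g1, g2, g3, g4⟩ := hR v hv
      exact ⟨ne0 v g4, nen v (hRD hv), g2, hB2 v (hRD hv)⟩
    · have hvD := h.inner_sub hv
      exact ⟨ne0 v (h.nen hvD), nen v (hD hvD), (hoff v hv).2, hB2 v (hD hvD)⟩) hturn hconn ha
  have hyy := he.y'
  have hen := he.e'
  have hyT : r'.up = true → r'.y = hh + 1 := fun hu => by rw [hyy, if_pos hu]
  have hyF : r'.up = false → r'.y = -hh - 1 := fun hu => by
    rw [hyy, if_neg (by rw [hu]; decide)]
  have hbT : ∀ {v : ℤ × ℤ}, Byd2 r'.up hh v.2 → r'.up = true → hh + 3 ≤ v.2 := by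
    intro v hb hu
    unfold Byd2 at hb
    rwa [if_pos hu] at hb
  have hbF : ∀ {v : ℤ × ℤ}, Byd2 r'.up hh v.2 → r'.up = false → v.2 ≤ -hh - 3 := by
    intro v hb hu
    unfold Byd2 at hb
    rwa [if_neg (by rw [hu]; decide)] at hb
  have q2 := sd_conn_ray hpath (R := Rt) (M := M'') (by
    intro v hv
    have hb := hRt v hv
    have bT := hbT hb
    have bF := hbF hb
    refine ⟨ne0 v ?_, nen v (hRtD hv), ?_, ?_, hB2 v (hRtD hv)⟩
    · intro e
      rw [← e] at bT bF
      cases hu : r'.up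
      · have := bF hu; have := hyF hu; omega
      · have := bT hu; have := hyT hu; omega
    · intro x
      unfold Ray.On
      cases hu : r'.up
      · have b1 := bF hu
        have b2 := hyF hu
        rw [if_neg (by decide), if_neg (by decide)]
        omega
      · have b1 := bT hu
        have b2 := hyT hu
        rw [if_pos rfl, if_pos rfl]
        omega
    · unfold Ray.rayS
      cases hu : r'.up
      · have b1 := bF hu
        have b2 := hyF hu
        simp only [Bool.false_eq_true, if_false]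
        split_ifs <;> first | rfl | (exfalso; omega)
      · have b1 := bT hu
        have b2 := hyT hu
        simp only [if_true]
        split_ifs <;> first | rfl | (exfalso; omega)) hturn
      (hw'.congr (M' := M'') (fun v hv => hRt2 v hv)) ha
  have z1 : r'.rayS a.1 a.2 = 1 := by
    unfold Ray.rayS
    unfold Byd at ha2
    rw [if_pos]
    cases hu : r'.up
    · rw [hu, if_neg (show ¬ (false = true) by decide)] at ha2
      have b2 := hyF hu
      rw [if_neg (show ¬ (false = true) by decide)]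
      constructor <;> omega
    · rw [hu, if_pos rfl] at ha2
      have b2 := hyT hu
      rw [if_pos rfl]
      constructor <;> omega
  have z0 : r'.rayS b.1 b.2 = 0 := by
    unfold Ray.rayS
    rw [if_neg]
    rintro ⟨g1, -⟩
    omega
  rw [q1, z1, z0] at q2
  have : ∀ x : ZMod 2, x + 1 ≠ x + 0 := by decide
  exact this _ q2

end

end TA
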