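import Mathlib

/-!
Colour-blind bond percolation on the square lattice.

* faces: points `(X,Y)` with `X + Y` even (both even: primal vertices, both odd: dual vertices);
  the colour of a face is the parity of `X`;
* tiles: points `(X,Y)` with `X + Y` odd (the edges); a configuration `M` says for every tile
  whether it is horizontal (`M v`, it joins its west and east faces) or vertical (it joins its
  south and north faces);
* interfaces are lattice paths of tiles `c 0, c 1, …` with `c (t+1) - c t = (±1, ±1)`; the medial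
  edge from `u` to `v` is denoted by the lower left corner `sq u v` of its unit square.

Side functions of lattice paths, by counting modulo 2.
-/

set_option autoImplicit false

namespace TA

/-- a medial edge joins the tiles `u` and `v` -/
def Diag (u v : ℤ × ℤ) : Prop :=
  (v.1 = u.1 + 1 ∨ v.1 = u.1 - 1) ∧ (v.2 = u.2 + 1 ∨ v.2 = u.2 - 1)

/-- the lower left corner of the unit square of a medial edge -/
def sq (u v : ℤ × ℤ) : ℤ × ℤ := (min u.1 v.1, min u.2 v.2)

lemma sq_comm (u v : ℤ × ℤ) : sq u v = sq v u := by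
  unfold sq; rw [min_comm u.1, min_comm u.2]

lemma Diag.symm {u v : ℤ × ℤ} (h : Diag u v) : Diag v u := by
  unfold Diag at *; omega

/-- the parity of the number of passes of the path on the line `y = Y + 1/2`, right of `X` -/
def pathS (c : ℕ → ℤ × ℤ) (n : ℕ) (X Y : ℤ) : ZMod 2 :=
  ∑ t ∈ Finset.range n,
    if (sq (c t) (c (t + 1))).2 = Y ∧ X ≤ (sq (c t) (c (t + 1))).1 then 1 else 0

/-- a vertical ray: it runs in the column of unit squares `[col, col+1]`, from height `y` up
(`up = true`) or down -/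
structure Ray where
  col : ℤ
  y : ℤ
  up : Bool

/-- the unit squares (medial edges) of a ray -/
def Ray.On (r : Ray) (x y : ℤ) : Prop := x = r.col ∧ (if r.up then r.y ≤ y else y < r.y)

instance (r : Ray) (x y : ℤ) : Decidable (r.On x y) := by unfold Ray.On; infer_instance

def Ray.rayS (r : Ray) (X Y : ℤ) : ZMod 2 :=
  if X ≤ r.col ∧ (if r.up then r.y ≤ Y else Y < r.y) then 1 else 0

/-- the ray starts at the tile `v` -/
def Ray.At (r : Ray) (v : ℤ × ℤ) : Prop := r.y = v.2 ∧ (r.col = v.1 ∨ r.col = v.1 - 1)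

/-- the side function -/
def side (c : ℕ → ℤ × ℤ) (n : ℕ) (r r' : Ray) (X Y : ℤ) : ZMod 2 :=
  pathS c n X Y + r.rayS X Y + r'.rayS X Y

/-- parity of the number of passes of the medial edge `(x,y)` by the path -/
def pas (c : ℕ → ℤ × ℤ) (n : ℕ) (x y : ℤ) : ZMod 2 :=
  ∑ t ∈ Finset.range n, if sq (c t) (c (t + 1)) = (x, y) then 1 else 0

def Ray.ras (r : Ray) (x y : ℤ) : ZMod 2 := if r.On x y then 1 else 0

/-- total parity of passes -/
def tot (c : ℕ → ℤ × ℤ) (n : ℕ) (r r' : Ray) (x y : ℤ) : ZMod 2 :=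
  pas c n x y + r.ras x y + r'.ras x y

lemma z2 (a : ZMod 2) : a + a = 0 := CharTwo.add_self_eq_zero a

lemma tele (a : ℕ → ZMod 2) (n : ℕ) : ∑ t ∈ Finset.range n, (a t + a (t + 1)) = a 0 + a n := by
  induction n with
  | zero => simp [z2]
  | succ n ih =>
    rw [Finset.sum_range_succ, ih]
    linear_combination z2 (a n)

lemma tot_eq (c : ℕ → ℤ × ℤ) (n : ℕ) (r r' : Ray) (x y : ℤ) :
    tot c n r r' x y = side c n r r' x y + side c n r r' (x + 1) y := by
  have h1 : pas c n x y = pathS c n x y + pathS c n (x + 1) y := by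
    unfold pas pathS
    rw [← Finset.sum_add_distrib]
    refine Finset.sum_congr rfl fun t _ => ?_
    by_cases h : sq (c t) (c (t + 1)) = (x, y)
    · rw [if_pos h, h, if_pos ⟨rfl, le_refl _⟩, if_neg (by simp), add_zero]
    · rw [if_neg h]
      by_cases h2 : (sq (c t) (c (t + 1))).2 = y ∧ x + 1 ≤ (sq (c t) (c (t + 1))).1
      · rw [if_pos h2, if_pos ⟨h2.1, by omega⟩, z2]
      · rw [if_neg h2, if_neg, add_zero]
        rintro ⟨h3, h4⟩
        apply h2
        refine ⟨h3, ?_⟩
        rcases lt_or_eq_of_le h4 with h5 | h5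
        · omega
        · exact absurd (Prod.ext h5.symm h3) h
  have h2 : ∀ s : Ray, s.ras x y = s.rayS x y + s.rayS (x + 1) y := by
    intro s
    unfold Ray.ras Ray.rayS
    by_cases h : (if s.up then s.y ≤ y else y < s.y)
    · by_cases h3 : x = s.col
      · rw [if_pos (show s.On x y from ⟨h3, h⟩), if_pos ⟨h3.le, h⟩, if_neg (by omega), add_zero]
      · rw [if_neg (fun h' => h3 h'.1)]
        by_cases h4 : x + 1 ≤ s.col
        · rw [if_pos ⟨by omega, h⟩, if_pos ⟨h4, h⟩, z2]
        · rw [if_neg (by omega), if_neg (by omega), add_zero]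
    · rw [if_neg (fun h' => h h'.2), if_neg (fun h' => h h'.2), if_neg (fun h' => h h'.2), add_zero]
  unfold tot side
  rw [h1, h2, h2]
  ring

lemma path_up_low (c : ℕ → ℤ × ℤ) (n : ℕ) (hc : ∀ t ≤ n, Odd ((c t).1 + (c t).2))
    (hd : ∀ t < n, Diag (c t) (c (t + 1))) {X Y : ℤ} (h : Even (X + Y)) :
    pathS c n X Y + pathS c n X (Y - 1) =
      (if (c 0).2 = Y ∧ X < (c 0).1 then 1 else 0) +
        (if (c n).2 = Y ∧ X < (c n).1 then 1 else 0) := by
  rw [← tele (fun t => if (c t).2 = Y ∧ X < (c t).1 then 1 else 0) n]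
  unfold pathS
  rw [← Finset.sum_add_distrib]
  refine Finset.sum_congr rfl fun t ht => ?_
  rw [Finset.mem_range] at ht
  have h1 := hd t ht
  have h2 := hc t ht.le
  have h3 := hc (t + 1) ht
  generalize c t = u at *
  generalize c (t + 1) = v at *
  obtain ⟨u1, u2⟩ := u
  obtain ⟨v1, v2⟩ := v
  unfold Diag at h1
  unfold sq
  simp only at *
  have e1 : min u1 v1 = if u1 ≤ v1 then u1 else v1 := by split_ifs <;> omega
  have e2 : min u2 v2 = if u2 ≤ v2 then u2 else v2 := by split_ifs <;> omega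
  rw [e1, e2]
  obtain ⟨k, hk⟩ := h
  obtain ⟨k2, hk2⟩ := h2
  obtain ⟨k3, hk3⟩ := h3
  split_ifs <;> first | rfl | (exfalso; omega)

lemma ray_up_low (r : Ray) (v : ℤ × ℤ) (hv : Odd (v.1 + v.2)) (hr : r.At v) {X Y : ℤ}
    (h : Even (X + Y)) :
    r.rayS X Y + r.rayS X (Y - 1) = if v.2 = Y ∧ X < v.1 then 1 else 0 := by
  obtain ⟨v1, v2⟩ := v
  obtain ⟨col, y, up⟩ := r
  unfold Ray.At at hr
  unfold Ray.rayS
  simp only at *
  obtain ⟨k, hk⟩ := h
  obtain ⟨k2, hk2⟩ := hv
  cases up <;> simp only [if_true, Bool.false_eq_true, if_false] <;>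
    split_ifs <;> first | rfl | (exfalso; omega)

/-- upper and lower evaluation of the side function of a face agree -/
lemma side_up_low {c : ℕ → ℤ × ℤ} {n : ℕ} (hc : ∀ t ≤ n, Odd ((c t).1 + (c t).2))
    (hd : ∀ t < n, Diag (c t) (c (t + 1))) {r r' : Ray} (hr : r.At (c 0)) (hr' : r'.At (c n))
    {X Y : ℤ} (h : Even (X + Y)) : side c n r r' X (Y - 1) = side c n r r' X Y := by
  have h1 := path_up_low c n hc hd h
  have h2 := ray_up_low r (c 0) (hc 0 (Nat.zero_le _)) hr h
  have h3 := ray_up_low r' (c n) (hc n le_rfl) hr' h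
  unfold side
  have e : ∀ a b : ZMod 2, a = b ↔ a + b = 0 := by decide
  rw [e]
  generalize (if (c 0).2 = Y ∧ X < (c 0).1 then (1 : ZMod 2) else 0) = p at *
  generalize (if (c n).2 = Y ∧ X < (c n).1 then (1 : ZMod 2) else 0) = q at *
  have := z2 p
  have := z2 q
  linear_combination h1 + h2 + h3 + z2 p + z2 q

end TA
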