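import Pool.Agent.Helper69.TwoArm.Flip

/-!
Boundary faces of an interface and the U-lemma.
-/

set_option autoImplicit false

namespace TA

lemma Opp.symm {f g v : ℤ × ℤ} (h : Opp f g v) : Opp g f v := by
  unfold Opp at *; tauto

lemma Opp.snd_iff {f g v : ℤ × ℤ} (h : Opp f g v) : (f.2 = v.2 ↔ g.2 = v.2) := by
  unfold Opp at h; omega

lemma StpV.symm {M : ℤ × ℤ → Prop} {f g v : ℤ × ℤ} (h : StpV M f g v) : StpV M g f v :=
  ⟨h.1.symm, h.2.trans h.1.snd_iff⟩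

lemma StpV.congr {M M' : ℤ × ℤ → Prop} {f g v : ℤ × ℤ} (h : StpV M f g v) (hM : M' v ↔ M v) :
    StpV M' f g v := ⟨h.1, hM.trans h.2⟩

lemma Conn.refl {M : ℤ × ℤ → Prop} {R : Set (ℤ × ℤ)} (f : ℤ × ℤ) : Conn M R f f :=
  Relation.ReflTransGen.refl

lemma Conn.trans {M : ℤ × ℤ → Prop} {R : Set (ℤ × ℤ)} {f g h : ℤ × ℤ} (h1 : Conn M R f g)
    (h2 : Conn M R g h) : Conn M R f h := Relation.ReflTransGen.trans h1 h2

lemma Conn.symm {M : ℤ × ℤ → Prop} {R : Set (ℤ × ℤ)} {f g : ℤ × ℤ} (h : Conn M R f g) :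
    Conn M R g f := by
  induction h with
  | refl => exact Conn.refl _
  | tail _ h2 ih =>
    obtain ⟨v, hv, hs⟩ := h2
    exact (Relation.ReflTransGen.single ⟨v, hv, hs.symm⟩).trans ih

lemma Conn.mono {M : ℤ × ℤ → Prop} {R R' : Set (ℤ × ℤ)} (hR : R ⊆ R') {f g : ℤ × ℤ}
    (h : Conn M R f g) : Conn M R' f g := by
  refine Relation.ReflTransGen.mono ?_ _ _ h
  rintro a b ⟨v, hv, hs⟩
  exact ⟨v, hR hv, hs⟩

lemma Conn.congr {M M' : ℤ × ℤ → Prop} {R : Set (ℤ × ℤ)} (hM : ∀ v ∈ R, (M' v ↔ M v))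
    {f g : ℤ × ℤ} (h : Conn M R f g) : Conn M' R f g := by
  refine Relation.ReflTransGen.mono ?_ _ _ h
  rintro a b ⟨v, hv, hs⟩
  exact ⟨v, hv, hs.congr (hM v hv)⟩

/-- colour and face parity are preserved by a step -/
lemma Opp.color {f g v : ℤ × ℤ} (h : Opp f g v) : g.1 % 2 = f.1 % 2 ∧ (g.1 + g.2) % 2 = (f.1 + f.2) % 2 := by
  unfold Opp at h; omega

lemma Opp.tile {f g v : ℤ × ℤ} (h : Opp f g v) (hf : (f.1 + f.2) % 2 = 0) : IsTile v := by
  unfold Opp at h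
  unfold IsTile
  rw [Int.odd_iff]
  omega

lemma Conn.color {M : ℤ × ℤ → Prop} {R : Set (ℤ × ℤ)} {f g : ℤ × ℤ} (h : Conn M R f g) :
    g.1 % 2 = f.1 % 2 ∧ (g.1 + g.2) % 2 = (f.1 + f.2) % 2 := by
  induction h with
  | refl => exact ⟨rfl, rfl⟩
  | tail _ h2 ih =>
    obtain ⟨v, hv, hs⟩ := h2
    have := hs.1.color
    omega

/-- the `k`-face of a medial edge: colour, parity, position -/
lemma fc_spec (k : ℤ) (q : ℤ × ℤ) : ((fc k q).1 + k) % 2 = 0 ∧ ((fc k q).1 + (fc k q).2) % 2 = 0 ∧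
    ((fc k q).1 = q.1 ∨ (fc k q).1 = q.1 + 1) ∧ ((fc k q).2 = q.2 ∨ (fc k q).2 = q.2 + 1) := by
  unfold fc
  obtain ⟨q1, q2⟩ := q
  simp only
  split_ifs <;> simp only <;> refine ⟨?_, ?_, ?_, ?_⟩ <;> first | omega | trivial | simp

lemma fc_uniq {k : ℤ} {q f : ℤ × ℤ} (h1 : (f.1 + k) % 2 = 0) (h2 : (f.1 + f.2) % 2 = 0)
    (h3 : f.1 = q.1 ∨ f.1 = q.1 + 1) (h4 : f.2 = q.2 ∨ f.2 = q.2 + 1) : fc k q = f := by
  obtain ⟨e1, e2, e3, e4⟩ := fc_spec k q
  apply Prod.ext <;> omega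

/-- the `k`-face along a turn -/
lemma fc_turn {M : ℤ × ℤ → Prop} {u v : ℤ × ℤ} (hu : IsTile u) (hd : Diag u v) (k : ℤ) :
    fc k (sq u v) = fc k (sq v (nx M u v)) ∨
      StpV M (fc k (sq u v)) (fc k (sq v (nx M u v))) v := by
  have hu' : (u.1 + u.2) % 2 = 1 := Int.odd_iff.1 hu
  have hd' := hd
  unfold Diag at hd'
  have key : ∀ f g : ℤ × ℤ, (f.1 + k) % 2 = 0 → (f.1 + f.2) % 2 = 0 →
      (f.1 = (sq u v).1 ∨ f.1 = (sq u v).1 + 1) → (f.2 = (sq u v).2 ∨ f.2 = (sq u v).2 + 1) →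
      (g.1 + k) % 2 = 0 → (g.1 + g.2) % 2 = 0 →
      (g.1 = (sq v (nx M u v)).1 ∨ g.1 = (sq v (nx M u v)).1 + 1) →
      (g.2 = (sq v (nx M u v)).2 ∨ g.2 = (sq v (nx M u v)).2 + 1) →
      (f = g ∨ StpV M f g v) → fc k (sq u v) = fc k (sq v (nx M u v)) ∨
      StpV M (fc k (sq u v)) (fc k (sq v (nx M u v))) v := by
    intro f g a1 a2 a3 a4 b1 b2 b3 b4 h
    rw [fc_uniq a1 a2 a3 a4, fc_uniq b1 b2 b3 b4]
    exact h
  by_cases hM : M v
  · rw [nx_true hM] at key ⊢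
    rcases Int.emod_two_eq_zero_or_one (v.1 + k) with hk | hk
    · refine key (v.1, u.2) (v.1, u.2) ?_ ?_ ?_ ?_ ?_ ?_ ?_ ?_ (Or.inl rfl) <;> (first | omega | (simp only; omega) | (simp only [sq]; omega))
    · refine key (u.1, v.2) (2 * v.1 - u.1, v.2) ?_ ?_ ?_ ?_ ?_ ?_ ?_ ?_
        (Or.inr ⟨?_, iff_of_true hM rfl⟩)
      · (first | omega | (simp only; omega) | (simp only [sq]; omega))
      · (first | omega | (simp only; omega) | (simp only [sq]; omega))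
      · (first | omega | (simp only; omega) | (simp only [sq]; omega))
      · (first | omega | (simp only; omega) | (simp only [sq]; omega))
      · (first | omega | (simp only; omega) | (simp only [sq]; omega))
      · (first | omega | (simp only; omega) | (simp only [sq]; omega))
      · (first | omega | (simp only; omega) | (simp only [sq]; omega))
      · (first | omega | (simp only; omega) | (simp only [sq]; omega))
      · exact Or.inl ⟨rfl, rfl, by (first | omega | (simp only; omega) | (simp only [sq]; omega))⟩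
  · rw [nx_false hM] at key ⊢
    rcases Int.emod_two_eq_zero_or_one (v.1 + k) with hk | hk
    · refine key (v.1, u.2) (v.1, 2 * v.2 - u.2) ?_ ?_ ?_ ?_ ?_ ?_ ?_ ?_
        (Or.inr ⟨?_, iff_of_false hM ?_⟩)
      · (first | omega | (simp only; omega) | (simp only [sq]; omega))
      · (first | omega | (simp only; omega) | (simp only [sq]; omega))
      · (first | omega | (simp only; omega) | (simp only [sq]; omega))
      · (first | omega | (simp only; omega) | (simp only [sq]; omega))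
      · (first | omega | (simp only; omega) | (simp only [sq]; omega))
      · (first | omega | (simp only; omega) | (simp only [sq]; omega))
      · (first | omega | (simp only; omega) | (simp only [sq]; omega))
      · (first | omega | (simp only; omega) | (simp only [sq]; omega))
      · exact Or.inr ⟨rfl, rfl, by (first | omega | (simp only; omega) | (simp only [sq]; omega))⟩
      · (first | omega | (simp only; omega) | (simp only [sq]; omega))
    · refine key (u.1, v.2) (u.1, v.2) ?_ ?_ ?_ ?_ ?_ ?_ ?_ ?_ (Or.inl rfl) <;> (first | omega | (simp only; omega) | (simp only [sq]; omega))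

section

variable {M : ℤ × ℤ → Prop} {D : Set (ℤ × ℤ)} {c : ℕ → ℤ × ℤ} {n : ℕ} {r r' : Ray}

lemma Traj.inner_sub (_h : Traj M D c n) : inner c n ⊆ D := by
  rintro v ⟨t, h1, h2, rfl⟩
  exact _h.inn t h1 h2

/-- consecutive boundary faces -/
lemma Traj.fc_next (h : Traj M D c n) (k : ℤ) {t : ℕ} (ht : t + 1 < n) :
    fc k (sq (c t) (c (t + 1))) = fc k (sq (c (t + 1)) (c (t + 2))) ∨
      StpV M (fc k (sq (c t) (c (t + 1)))) (fc k (sq (c (t + 1)) (c (t + 2)))) (c (t + 1)) := by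
  rw [h.turn t ht]
  exact fc_turn (h.tiles t (by omega)) (h.diags t (by omega)) k

/-- the boundary faces of one colour are connected along the path -/
lemma Traj.bd_conn (h : Traj M D c n) (k : ℤ) : ∀ t < n,
    Conn M (inner c n) (fc k (sq (c 0) (c 1))) (fc k (sq (c t) (c (t + 1)))) := by
  intro t
  induction t with
  | zero => intro _; exact Conn.refl _
  | succ t ih =>
    intro ht
    refine (ih (by omega)).trans ?_
    rcases h.fc_next k ht with e | e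
    · rw [e]; exact Conn.refl _
    · exact Relation.ReflTransGen.single ⟨c (t + 1), ⟨t + 1, by omega, ht, rfl⟩, e⟩

lemma Traj.bd_conn2 (h : Traj M D c n) (k : ℤ) {f g : ℤ × ℤ} (hf : f ∈ Bd k c n)
    (hg : g ∈ Bd k c n) : Conn M (inner c n) f g := by
  obtain ⟨s, hs, rfl⟩ := hf
  obtain ⟨t, ht, rfl⟩ := hg
  exact (h.bd_conn k s hs).symm.trans (h.bd_conn k t ht)

lemma Traj.pathR (h : Traj M D c n) (hr : r.At (c 0)) (hr' : r'.At (c n)) : PathR c n r r' :=
  ⟨h.tiles, h.diags, hr, hr'⟩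

lemma Traj.ne0 (h : Traj M D c n) {v : ℤ × ℤ} (hv : v ∈ D) : c 0 ≠ v :=
  fun e => h.out0 (e ▸ hv)

lemma Traj.nen (h : Traj M D c n) {v : ℤ × ℤ} (hv : v ∈ D) : c n ≠ v :=
  fun e => h.outn (e ▸ hv)

/-- joined steps through inner tiles do not change the side -/
lemma Traj.sd_step (h : Traj M D c n) (hr : r.At (c 0)) (hr' : r'.At (c n)) {f g v : ℤ × ℤ}
    (hv : v ∈ D) (ho : StpV M f g v) (hf : (f.1 + f.2) % 2 = 0) (hr2 : r.Off v)
    (hr2' : r'.Off v) : sd c n r r' f = sd c n r r' g :=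
  sd_joined (h.pathR hr hr') (ho.1.tile hf) (h.ne0 hv) (h.nen hv)
    (fun t ht _ => h.turn t ht) ho hr2 hr2'

/-- the side function is constant on the boundary faces of one colour -/
lemma Traj.sd_bd (h : Traj M D c n) (hr : r.At (c 0)) (hr' : r'.At (c n))
    (hoff : ∀ v ∈ inner c n, r.Off v ∧ r'.Off v) (k : ℤ) : ∀ t < n,
    sd c n r r' (fc k (sq (c t) (c (t + 1)))) = sd c n r r' (fc k (sq (c 0) (c 1))) := by
  intro t
  induction t with
  | zero => intro _; rfl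
  | succ t ih =>
    intro ht
    rw [← ih (by omega)]
    rcases h.fc_next k ht with e | e
    · rw [e]
    · have hi : c (t + 1) ∈ inner c n := ⟨t + 1, by omega, ht, rfl⟩
      exact (h.sd_step hr hr' (h.inner_sub hi) e (fc_spec k _).2.1 (hoff _ hi).1 (hoff _ hi).2).symm

lemma pas_one (hi : ∀ s < n, ∀ t < n, sq (c s) (c (s + 1)) = sq (c t) (c (t + 1)) → s = t) {t : ℕ}
    (ht : t < n) {x y : ℤ} (hs : sq (c t) (c (t + 1)) = (x, y)) : pas c n x y = 1 := by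
  unfold pas
  rw [Finset.sum_eq_single t]
  · rw [if_pos hs]
  · intro s hs' hst
    rw [if_neg]
    intro e
    exact hst (hi s (Finset.mem_range.1 hs') t ht (e.trans hs.symm))
  · intro h'
    exact absurd (Finset.mem_range.2 ht) h'

lemma pas_none {x y : ℤ} (h : ∀ t < n, sq (c t) (c (t + 1)) ≠ (x, y)) : pas c n x y = 0 := by
  unfold pas
  refine Finset.sum_eq_zero fun t ht => if_neg (h t (Finset.mem_range.1 ht))

/-- the medial edges of a path at an inner tile -/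
lemma Traj.at_tile (h : Traj M D c n) {v : ℤ × ℤ} (hv : v ∈ inner c n) :
    ∃ s, s + 1 < n ∧ ∃ x y x' y' : ℤ, sq (c s) (c (s + 1)) = (x, y) ∧
      sq (c (s + 1)) (c (s + 1 + 1)) = (x', y') ∧ (x = v.1 ∨ x = v.1 - 1) ∧
      (y = v.2 ∨ y = v.2 - 1) ∧ (x' = v.1 ∨ x' = v.1 - 1) ∧ (y' = v.2 ∨ y' = v.2 - 1) ∧
      (M v → x ≠ x' ∧ y = y') ∧ (¬ M v → x = x' ∧ y ≠ y') := by
  obtain ⟨t, ht0, htn, rfl⟩ := hv
  obtain ⟨s, rfl⟩ : ∃ s, t = s + 1 := ⟨t - 1, by omega⟩
  have hd1 := h.diags s (by omega)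
  have hd2 := h.diags (s + 1) htn
  have e := turn_sq (M := M) hd1
  rw [← h.turn s htn] at e
  refine ⟨s, htn, _, _, _, _, rfl, rfl, ?_, ?_, ?_, ?_, fun hM => ⟨(e.1 hM).1, (e.1 hM).2.1⟩,
    fun hM => ⟨(e.2 hM).1, (e.2 hM).2.1⟩⟩
  · unfold Diag at hd1; (first | omega | (simp only; omega) | (simp only [sq]; omega))
  · unfold Diag at hd1; (first | omega | (simp only; omega) | (simp only [sq]; omega))
  · unfold Diag at hd2; (first | omega | (simp only; omega) | (simp only [sq]; omega))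
  · unfold Diag at hd2; (first | omega | (simp only; omega) | (simp only [sq]; omega))

/-- perpendicular horizontal step at an inner tile -/
lemma Traj.perpH (h : Traj M D c n) {v : ℤ × ℤ} (hv : v ∈ inner c n) (hM : ¬ M v) {k : ℤ}
    (hk : (v.1 - 1 + k) % 2 = 0) (htile : (v.1 + v.2) % 2 = 1) :
    (((v.1 - 1, v.2) ∈ Bd k c n ∨ ((v.1 + 1, v.2) ∈ Bd k c n ∧
      pas c n (v.1 - 1) v.2 + pas c n v.1 v.2 = 1)) ∧
    ((v.1 + 1, v.2) ∈ Bd k c n ∨ ((v.1 - 1, v.2) ∈ Bd k c n ∧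
      pas c n (v.1 - 1) v.2 + pas c n v.1 v.2 = 1))) := by
  obtain ⟨s, hs, x, y, x', y', e1, e2, hx, hy, hx', hy', -, hturn⟩ := h.at_tile hv
  obtain ⟨hxx, hyy⟩ := hturn hM
  have fW : ∀ y : ℤ, (y = v.2 ∨ y = v.2 - 1) → fc k (v.1 - 1, y) = (v.1 - 1, v.2) := by
    intro y hy
    apply fc_uniq <;> (first | omega | (simp only; omega) | (simp only [sq]; omega))
  have fE : ∀ y : ℤ, (y = v.2 ∨ y = v.2 - 1) → fc k (v.1, y) = (v.1 + 1, v.2) := by
    intro y hy
    apply fc_uniq <;> (first | omega | (simp only; omega) | (simp only [sq]; omega))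
  have no : ∀ f : ℤ × ℤ, f ∉ Bd k c n → ∀ x y : ℤ, fc k (x, y) = f → pas c n x y = 0 := by
    intro f hf x y hxy
    refine pas_none fun t ht e => hf ⟨t, ht, ?_⟩
    rw [e, hxy]
  have yes : ∃ t < n, sq (c t) (c (t + 1)) = (x, v.2) := by
    rcases hy with hy | hy
    · exact ⟨s, by omega, by rw [e1, hy]⟩
    · exact ⟨s + 1, hs, by rw [e2]; exact Prod.ext hxx.symm (by (first | omega | (simp only; omega) | (simp only [sq]; omega)))⟩
  obtain ⟨t, ht, et⟩ := yes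
  have p1 : pas c n x v.2 = 1 := pas_one h.inj ht et
  have inB : fc k (x, v.2) ∈ Bd k c n := ⟨t, ht, by rw [et]⟩
  rcases hx with hx | hx
  · rw [hx, fE _ (Or.inl rfl)] at inB
    rw [hx] at p1
    refine ⟨?_, Or.inl inB⟩
    by_cases hf : (v.1 - 1, v.2) ∈ Bd k c n
    · exact Or.inl hf
    · right
      refine ⟨inB, ?_⟩
      rw [p1, no _ hf _ _ (fW _ (Or.inl rfl)), zero_add]
  · rw [hx, fW _ (Or.inl rfl)] at inB
    rw [hx] at p1
    refine ⟨Or.inl inB, ?_⟩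
    by_cases hf : (v.1 + 1, v.2) ∈ Bd k c n
    · exact Or.inl hf
    · right
      refine ⟨inB, ?_⟩
      rw [p1, no _ hf _ _ (fE _ (Or.inl rfl)), add_zero]

/-- perpendicular vertical step at an inner tile -/
lemma Traj.perpV (h : Traj M D c n) {v : ℤ × ℤ} (hv : v ∈ inner c n) (hM : M v) {k : ℤ}
    (hk : (v.1 + k) % 2 = 0) (htile : (v.1 + v.2) % 2 = 1) :
    (((v.1, v.2 - 1) ∈ Bd k c n ∨ ((v.1, v.2 + 1) ∈ Bd k c n ∧
      pas c n v.1 (v.2 - 1) + pas c n v.1 v.2 = 1)) ∧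
    ((v.1, v.2 + 1) ∈ Bd k c n ∨ ((v.1, v.2 - 1) ∈ Bd k c n ∧
      pas c n v.1 (v.2 - 1) + pas c n v.1 v.2 = 1))) := by
  obtain ⟨s, hs, x, y, x', y', e1, e2, hx, hy, hx', hy', hturn, -⟩ := h.at_tile hv
  obtain ⟨hxx, hyy⟩ := hturn hM
  have fS : ∀ x : ℤ, (x = v.1 ∨ x = v.1 - 1) → fc k (x, v.2 - 1) = (v.1, v.2 - 1) := by
    intro x hx
    apply fc_uniq <;> (first | omega | (simp only; omega) | (simp only [sq]; omega))
  have fN : ∀ x : ℤ, (x = v.1 ∨ x = v.1 - 1) → fc k (x, v.2) = (v.1, v.2 + 1) := by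
    intro x hx
    apply fc_uniq <;> (first | omega | (simp only; omega) | (simp only [sq]; omega))
  have no : ∀ f : ℤ × ℤ, f ∉ Bd k c n → ∀ x y : ℤ, fc k (x, y) = f → pas c n x y = 0 := by
    intro f hf x y hxy
    refine pas_none fun t ht e => hf ⟨t, ht, ?_⟩
    rw [e, hxy]
  have yes : ∃ t < n, sq (c t) (c (t + 1)) = (v.1, y) := by
    rcases hx with hx | hx
    · exact ⟨s, by omega, by rw [e1, hx]⟩
    · exact ⟨s + 1, hs, by rw [e2]; exact Prod.ext (by (first | omega | (simp only; omega) | (simp only [sq]; omega))) hyy.symm⟩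
  obtain ⟨t, ht, et⟩ := yes
  have p1 : pas c n v.1 y = 1 := pas_one h.inj ht et
  have inB : fc k (v.1, y) ∈ Bd k c n := ⟨t, ht, by rw [et]⟩
  rcases hy with hy | hy
  · rw [hy, fN _ (Or.inl rfl)] at inB
    rw [hy] at p1
    refine ⟨?_, Or.inl inB⟩
    by_cases hf : (v.1, v.2 - 1) ∈ Bd k c n
    · exact Or.inl hf
    · right
      refine ⟨inB, ?_⟩
      rw [p1, no _ hf _ _ (fS _ (Or.inl rfl)), zero_add]
  · rw [hy, fS _ (Or.inl rfl)] at inB
    rw [hy] at p1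
    refine ⟨Or.inl inB, ?_⟩
    by_cases hf : (v.1, v.2 + 1) ∈ Bd k c n
    · exact Or.inl hf
    · right
      refine ⟨inB, ?_⟩
      rw [p1, no _ hf _ _ (fN _ (Or.inl rfl)), add_zero]

/-- a perpendicular tile of an interface: the face `f` is on the boundary, or the step flips the
side and the other face is on the boundary -/
lemma Traj.perp (h : Traj M D c n) (hr : r.At (c 0)) (hr' : r'.At (c n)) {f g v : ℤ × ℤ}
    (hv : v ∈ inner c n) (ho : Opp f g v) (hn : ¬ StpV M f g v) (hf : (f.1 + f.2) % 2 = 0)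
    (hr2 : r.Off v) (hr2' : r'.Off v) {k : ℤ} (hk : (f.1 + k) % 2 = 0) :
    f ∈ Bd k c n ∨ (g ∈ Bd k c n ∧ sd c n r r' f + sd c n r r' g = 1) := by
  have htile := ho.tile hf
  have hv' : (v.1 + v.2) % 2 = 1 := Int.odd_iff.1 htile
  have ef := opp_flip (h.pathR hr hr') htile ho
  have tt : ∀ x y : ℤ, (x = v.1 ∨ x = v.1 - 1) → (y = v.2 ∨ y = v.2 - 1) →
      tot c n r r' x y = pas c n x y := fun x y hx hy => tot_off hr2 hr2' hx hy
  by_cases hM : M v
  · have hv2 : f.2 ≠ v.2 := fun e => hn ⟨ho, iff_of_true hM e⟩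
    rw [ef.2 hv2, tt _ _ (Or.inl rfl) (Or.inr rfl), tt _ _ (Or.inl rfl) (Or.inl rfl)]
    have ho' := ho
    unfold Opp at ho'
    have hp := h.perpV hv hM (k := k) (by omega) hv'
    have h3 : (f = (v.1, v.2 - 1) ∧ g = (v.1, v.2 + 1)) ∨
        (f = (v.1, v.2 + 1) ∧ g = (v.1, v.2 - 1)) := by
      rcases ho' with ho' | ⟨a, b, ⟨e1, e2⟩ | ⟨e1, e2⟩⟩
      · exact absurd ho'.1 hv2
      · exact Or.inl ⟨Prod.ext a e1, Prod.ext b e2⟩
      · exact Or.inr ⟨Prod.ext a e1, Prod.ext b e2⟩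
    rcases h3 with ⟨rfl, rfl⟩ | ⟨rfl, rfl⟩
    · exact hp.1
    · exact hp.2
  · have hv2 : f.2 = v.2 := by
      by_contra e
      exact hn ⟨ho, iff_of_false hM e⟩
    rw [ef.1 hv2, tt _ _ (Or.inr rfl) (Or.inl rfl), tt _ _ (Or.inl rfl) (Or.inl rfl)]
    have ho' := ho
    unfold Opp at ho'
    have hp := h.perpH hv hM (k := k) (by omega) hv'
    have h3 : (f = (v.1 - 1, v.2) ∧ g = (v.1 + 1, v.2)) ∨
        (f = (v.1 + 1, v.2) ∧ g = (v.1 - 1, v.2)) := by
      rcases ho' with ⟨a, b, ⟨e1, e2⟩ | ⟨e1, e2⟩⟩ | ho'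
      · exact Or.inl ⟨Prod.ext e1 a, Prod.ext e2 b⟩
      · exact Or.inr ⟨Prod.ext e1 a, Prod.ext e2 b⟩
      · exfalso; omega
    rcases h3 with ⟨rfl, rfl⟩ | ⟨rfl, rfl⟩
    · exact hp.1
    · exact hp.2

end

end TA
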